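import Mathlib
import Pool.Agent.V11175.Sh11

/-!
# Reduction of the words `1, ..., k - 3, k - 1, k, k - 1, k, ..., n`
-/

set_option autoImplicit false
set_option linter.unusedSectionVars false

namespace Pool.Agent.V11307.RV

open Pool.Agent.V11175.Sh Pool.Agent.V11175.Sh.Sh Pool.Agent.V11175.Sh.A
open Finset MvPolynomial

lemma run_two (a : ℕ) : (run a 2 : A R) = tt a * tt (a + 1) := by
  rw [run_succ, run_one]

/-- the square of a run of length two, times its last letter, vanishes -/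
lemma Y1 (a : ℕ) : (run a 2 * run a 2 * tt (a + 1) : A R) = 0 := by
  have hN := N (K := R) a
  have hC := C (K := R) (a + 1) a
  have hc := cube (K := R) a
  have hc' := cube (K := R) (a + 1)
  have h1 : (tt a * tt (a + 1) * (tt a * tt (a + 1)) * tt (a + 1) : A R) =
      (tt a * (tt a * tt a)) * (tt (a + 1) * tt (a + 1)) +
      (tt (a + 1) * (tt (a + 1) * tt a) + tt (a + 1) * (tt a * tt (a + 1)) + tt a * (tt (a + 1) * tt (a + 1))) *
        (tt (a + 1) * tt (a + 1)) -
      tt (a + 1) * tt a * (tt (a + 1) * (tt (a + 1) * tt (a + 1))) -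
      tt a * (tt (a + 1) * (tt (a + 1) * tt (a + 1))) * tt (a + 1) +
      (tt a * tt (a + 1) - (tt a * tt a + tt (a + 1) * tt (a + 1))) * (tt a * tt (a + 1)) * tt (a + 1) := by
    noncomm_ring
  rw [run_two, h1, hC, hc, hc', hN]
  simp

lemma Y2 (a : ℕ) : (run a 2 * run a 2 * (tt (a + 2) * tt (a + 2)) : A R) = 0 := by
  have hN := N (K := R) (a + 1)
  have h1 := Y1 a
  have e : (run a 2 * run a 2 * (tt (a + 2) * tt (a + 2)) : A R) =
      run a 2 * run a 2 * tt (a + 1) * tt (a + 1 + 1) - run a 2 * run a 2 * tt (a + 1) * tt (a + 1) := by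
    rw [mul_assoc (run a 2 * run a 2) (tt (a + 1)), mul_assoc (run a 2 * run a 2) (tt (a + 1)), hN]
    noncomm_ring
  rw [e, h1]; simp

lemma Yrun (a r : ℕ) : (run a 2 * run a 2 * D (run (a + 1) r) : A R) = run a 2 * run a 2 * run (a + 2) r := by
  induction r with
  | zero => rw [run_zero, run_zero, map_one]
  | succ r ih =>
    rw [run_succ' (a + 1) r, map_mul, ← mul_assoc, ih, D_tt, run_succ' (a + 2) r, mul_sub]
    have h : (run a 2 * run a 2 * run (a + 2) r * tt (a + 1 + r) : A R) = 0 := by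
      cases r with
      | zero => rw [run_zero, mul_one, add_zero, Y1]
      | succ r =>
        have h1 := run_shift_all (K := R) (a + 2) r 0
        rw [run_one, show a + 2 + r = a + 1 + (r + 1) by ring, add_zero] at h1
        have h2 := Y2 a
        rw [mul_assoc (run a 2 * run a 2), h1, run_succ (a + 2) r, ← mul_assoc (tt (a + 2)), ← mul_assoc (run a 2 * run a 2), h2,
          zero_mul]
    rw [h, sub_zero, mul_assoc, show a + 1 + r + 1 = a + 2 + r by ring]

lemma loc1 (b : ℕ) : (D (tt b) * D (tt b) + tt b * D (tt (b + 1)) : A R) =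
    tt (b + 2) * tt (b + 2) + tt (b + 2) * tt (b + 1) := by
  have h1 := N (K := R) b
  have h2 := N (K := R) (b + 1)
  have h3 := Q (K := R) b (b + 1)
  rw [D_tt, D_tt]
  have key : ((tt (b + 1) - tt b) * (tt (b + 1) - tt b) + tt b * (tt (b + 1 + 1) - tt (b + 1)) : A R) -
      (tt (b + 2) * tt (b + 2) + tt (b + 2) * tt (b + 1)) =
      - (tt b * tt (b + 1) - (tt b * tt b + tt (b + 1) * tt (b + 1))) +
      (tt (b + 1) * tt (b + 1 + 1) - (tt (b + 1) * tt (b + 1) + tt (b + 1 + 1) * tt (b + 1 + 1))) -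
      (tt b * tt (b + 1) + tt (b + 1) * tt b - tt b * tt (b + 1 + 1) - tt (b + 1) * tt (b + 1)
    + tt (b + 1) * tt (b + 1 + 1) + tt (b + 1 + 1) * tt (b + 1)) := by
    rw [show b + 2 = b + 1 + 1 by ring]
    noncomm_ring
  rw [← sub_eq_zero, key, h3, sub_eq_zero.2 h1, sub_eq_zero.2 h2]
  simp

lemma loc2 (b : ℕ) : ((tt (b + 2) * tt (b + 2) + tt (b + 2) * tt (b + 1)) * D (tt (b + 1)) : A R) =
    - (tt (b + 2) * (tt (b + 2) * tt (b + 1))) := by
  have h2 := N (K := R) (b + 1)
  have h3 := cube (K := R) (b + 2)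
  rw [D_tt]
  have key : ((tt (b + 2) * tt (b + 2) + tt (b + 2) * tt (b + 1)) * (tt (b + 1 + 1) - tt (b + 1)) : A R) -
      (- (tt (b + 2) * (tt (b + 2) * tt (b + 1)))) =
      tt (b + 2) * (tt (b + 1) * tt (b + 1 + 1) - (tt (b + 1) * tt (b + 1) + tt (b + 1 + 1) * tt (b + 1 + 1))) +
      tt (b + 2) * (tt (b + 2) * tt (b + 2)) + tt (b + 2) * (tt (b + 2) * tt (b + 2)) := by
    rw [show b + 2 = b + 1 + 1 by ring]
    noncomm_ring
  rw [← sub_eq_zero, key, h3, sub_eq_zero.2 h2]
  simp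

lemma loc3 (b : ℕ) : (- (tt (b + 2) * (tt (b + 2) * tt (b + 1))) * D (tt (b + 2)) : A R) =
    run (b + 2) 2 * run (b + 2) 2 := by
  have h1 := N (K := R) (b + 2)
  have h3 := cube (K := R) (b + 2)
  have h4 := cube (K := R) (b + 2 + 1)
  have h5 := Q (K := R) (b + 1) (b + 2)
  have h6 := C (K := R) (b + 2) (b + 2 + 1)
  rw [D_tt, run_two]
  have key : (- (tt (b + 2) * (tt (b + 2) * tt (b + 1))) * (tt (b + 2 + 1) - tt (b + 2)) : A R) -
      tt (b + 2) * tt (b + 2 + 1) * (tt (b + 2) * tt (b + 2 + 1)) =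
      tt (b + 2) * tt (b + 2) * (tt (b + 1) * tt (b + 2) + tt (b + 2) * tt (b + 1) - tt (b + 1) * tt (b + 2 + 1)
        - tt (b + 2) * tt (b + 1 + 1) + tt (b + 1 + 1) * tt (b + 2 + 1) + tt (b + 2 + 1) * tt (b + 1 + 1)) -
      (tt (b + 2) * (tt (b + 2) * tt (b + 2))) * tt (b + 1) + (tt (b + 2) * (tt (b + 2) * tt (b + 2))) * tt (b + 2) -
      (tt (b + 2) * (tt (b + 2) * tt (b + 2))) * tt (b + 2 + 1) -
      (tt (b + 2) * (tt (b + 2) * tt (b + 2 + 1)) + tt (b + 2) * (tt (b + 2 + 1) * tt (b + 2)) +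
        tt (b + 2 + 1) * (tt (b + 2) * tt (b + 2))) * tt (b + 2) +
      tt (b + 2 + 1) * (tt (b + 2) * (tt (b + 2) * tt (b + 2))) -
      tt (b + 2) * tt (b + 2 + 1) * (tt (b + 2) * tt (b + 2 + 1) - (tt (b + 2) * tt (b + 2) + tt (b + 2 + 1) * tt (b + 2 + 1))) -
      tt (b + 2) * (tt (b + 2 + 1) * (tt (b + 2 + 1) * tt (b + 2 + 1))) := by
    rw [show b + 2 = b + 1 + 1 by ring]
    noncomm_ring
  rw [← sub_eq_zero, key, h3, h4, h5, h6, sub_eq_zero.2 h1]
  simp

lemma S_two (b r : ℕ) : (S (run (b + 1) 2 * run (b + 1) (r + 2)) : A R) =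
    (D (tt b) * D (tt b) + tt b * D (tt (b + 1))) * D (run (b + 1) (r + 2)) := by
  rw [map_mul, S_run, S_run, show b + 1 + 1 = b + 2 by ring, show r + 2 = 2 + r by ring, run_add (b + 2) 2 r, run_add (b + 1) 2 r,
    map_mul D, run_two (b + 1), map_mul D, loc1]
  have h := Yrun (b + 2) r
  rw [show b + 2 + 2 = b + 4 by ring, show b + 2 + 1 = b + 3 by ring] at h
  rw [← mul_assoc, show b + 2 + 2 = b + 4 by ring, ← h, ← loc3, ← loc2]
  rw [show b + 1 + 1 = b + 2 by ring, show b + 1 + 2 = b + 3 by ring]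
  noncomm_ring

lemma C0 (b r : ℕ) : d (tt b * (run (b + 1) 2 * run (b + 1) (r + 2)) : A R) = D (tt b * run b (r + 3)) := by
  have h1 := d_run_run (b + 1) 1 r
  rw [show 1 + 1 + r = r + 2 by ring, run_one] at h1
  rw [d_ttmul, h1, S_two, run_succ b (r + 2), map_mul D, map_mul D, map_mul D]
  noncomm_ring

/-- the word with the letter `a + p` missing and two letters repeated -/
noncomputable def UU (a p r : ℕ) : A R := run a p * (run (a + p + 1) 2 * run (a + p + 1) (r + 2))

lemma UU_succ (a p r : ℕ) : UU a (p + 1) r = tt a * UU (a + 1) p r := by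
  rw [UU, UU, run_succ, mul_assoc, show a + (p + 1) + 1 = a + 1 + p + 1 by ring]

lemma CC (a p r : ℕ) : d (tt a * UU a p r) = D (tt a * run a (p + r + 3)) := by
  have h1 := run_shift_all (K := R) a p (r + 2)
  rw [UU, d_run_mul, C0, ← map_mul, ← mul_assoc, ← run_succ', show r + 3 = r + 2 + 1 by ring, h1]
  rfl

/-- the first reduction -/
noncomputable def XX (r : ℕ) : ℕ → ℕ → A R
  | a, 0 => tt (a + 1) * run (a + 1) (r + 2)
  | a, p + 1 => tt (a + 1) * run (a + 1) (p + r + 3) + tt a * XX r (a + 1) p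

theorem d_UU (r p : ℕ) : ∀ a, d (UU a p r) = D (XX r a p) := by
  induction p with
  | zero =>
    intro a
    have h1 := d_run_run (a + 1) 1 r
    rw [show 1 + 1 + r = r + 2 by ring, run_one] at h1
    rw [UU, run_zero, one_mul, XX, add_zero, h1]
  | succ p ih =>
    intro a
    have h := CC (a + 1) p r
    rw [d_ttmul, sub_eq_iff_eq_add] at h
    rw [UU_succ, d_ttmul, h, ih, XX, map_add, map_mul D (tt a), D_tt a]
    noncomm_ring

lemma sqrun (a m : ℕ) : (tt (a + 1) * run (a + 1) (m + 1) : A R) = run a (m + 2) - tt a * (tt a * run (a + 2) m) := by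
  have h1 := N (K := R) a
  rw [run_succ a (m + 1), run_succ (a + 1) m, ← mul_assoc, ← mul_assoc (tt a) (tt (a + 1)), h1, add_mul]
  rw [show a + 1 + 1 = a + 2 by ring]
  noncomm_ring

theorem XX_eq (r p : ℕ) : ∀ a, XX r a p = (p + 1) • run a (p + r + 3) -
    tt a * ∑ j ∈ Finset.range (p + 1), run a (j + 1) * run (a + j + 2) (p + r + 1 - j) := by
  induction p with
  | zero =>
    intro a
    rw [XX, sqrun]
    simp [run_one]
  | succ p ih =>
    intro a
    rw [XX, ih, sqrun a (p + r + 2), Finset.sum_range_succ' _ (p + 1), run_one, mul_add, mul_sub, Finset.mul_sum,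
      Finset.mul_sum, Finset.mul_sum, run_succ a (p + 1 + r + 2)]
    have h1 : ∀ j ∈ Finset.range (p + 1), (tt a * (tt (a + 1) * (run (a + 1) (j + 1) * run (a + 1 + j + 2) (p + r + 1 - j))) : A R) =
        tt a * (run a (j + 1 + 1) * run (a + (j + 1) + 2) (p + 1 + r + 1 - (j + 1))) := by
      intro j hj
      have h2 := sq1 (K := R) a
      rw [run_succ (a + 1) j, run_succ a (j + 1), run_succ (a + 1) j, show a + 1 + j + 2 = a + (j + 1) + 2 by ring,
        show p + 1 + r + 1 - (j + 1) = p + r + 1 - j by omega]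
      have e1 : ∀ u v : A R, tt a * (tt (a + 1) * (tt (a + 1) * u * v)) = (tt a * (tt (a + 1) * tt (a + 1))) * (u * v) := by
        intro u v; noncomm_ring
      have e2 : ∀ u v : A R, tt a * (tt a * (tt (a + 1) * u) * v) = (tt a * (tt a * tt (a + 1))) * (u * v) := by
        intro u v; noncomm_ring
      rw [e1, e2, h2]
    rw [Finset.sum_congr rfl h1]
    rw [show p + 1 + r + 2 = p + r + 3 by ring, show p + r + 2 + 2 = (p + r + 3) + 1 by ring, run_succ a (p + r + 3),
      show p + 1 + r + 1 - 0 = p + r + 2 by omega, show a + 0 + 2 = a + 2 by ring, mul_smul_comm, succ_nsmul _ (p + 1)]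
    abel

/-- `g a n i` is the run of length `n` with the `i`-th letter (`i = 0, 1, ...`) omitted -/
noncomputable def gap (a n i : ℕ) : A R := run a i * run (a + i + 1) (n - 1 - i)

lemma d_gap (a n j : ℕ) (hj : j < n) : d (tt a * gap a n j) = D (∑ i ∈ Finset.Ico j n, gap a n i) := by
  rw [gap, d_U]
  congr 1
  rw [V, Finset.mul_sum, Finset.sum_Ico_eq_sum_range, show n - 1 - j + 1 = n - j by omega]
  refine Finset.sum_congr rfl fun i hi => ?_
  rw [Finset.mem_range] at hi
  rw [gap, run_add a j i, mul_assoc, show a + j + i + 1 = a + (j + i) + 1 by ring,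
    show n - j - 1 - i = n - 1 - (j + i) by omega]

theorem d_XX (a r p : ℕ) : d (XX r a p) =
    D (∑ j ∈ Finset.range (p + 1), ∑ i ∈ Finset.range (j + 1), gap a (p + r + 3) i) := by
  have h1 : ∀ j ∈ Finset.range (p + 1), d (tt a * (run a (j + 1) * run (a + j + 2) (p + r + 1 - j))) =
      D (∑ i ∈ Finset.Ico (j + 1) (p + r + 3), gap a (p + r + 3) i) := by
    intro j hj
    rw [Finset.mem_range] at hj
    rw [← d_gap a (p + r + 3) (j + 1) (by omega), gap, show a + (j + 1) + 1 = a + j + 2 by ring,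
      show p + r + 3 - 1 - (j + 1) = p + r + 1 - j by omega]
  have h2 : d (run a (p + r + 3) : A R) = D (∑ i ∈ Finset.range (p + r + 3), gap a (p + r + 3) i) := by
    rw [d_run]; rfl
  rw [XX_eq, map_sub, map_nsmul, Finset.mul_sum, map_sum, Finset.sum_congr rfl h1, h2, ← map_sum, ← map_nsmul, ← map_sub]
  congr 1
  have h3 : ∀ j ∈ Finset.range (p + 1), ∑ i ∈ Finset.range (j + 1), gap a (p + r + 3) i =
      ∑ i ∈ Finset.range (p + r + 3), gap a (p + r + 3) i - ∑ i ∈ Finset.Ico (j + 1) (p + r + 3), gap a (p + r + 3) i := by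
    intro j hj
    rw [Finset.mem_range] at hj
    rw [← Finset.sum_range_add_sum_Ico _ (show j + 1 ≤ p + r + 3 by omega)]
    abel
  rw [Finset.sum_congr rfl h3, Finset.sum_sub_distrib, Finset.sum_const, Finset.card_range]

lemma nat_gap (a n i : ℕ) : Nat' (gap a n i) := (nat_run _ _).mul (nat_run _ _)

lemma nat_nsmul (k : ℕ) {w : A R} (h : Nat' w) : Nat' (k • w) := by
  induction k with
  | zero => rw [zero_smul]; exact nat_zero
  | succ k ih => rw [succ_nsmul]; exact ih.add h

lemma nat_UU (a p r : ℕ) : Nat' (UU a p r) := (nat_run _ _).mul ((nat_run _ _).mul (nat_run _ _))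

lemma nat_XX (r p : ℕ) : ∀ a, Nat' (XX r a p) := by
  induction p with
  | zero => intro a; exact (nat_tt _).mul (nat_run _ _)
  | succ p ih => intro a; exact ((nat_tt _).mul (nat_run _ _)).add ((nat_tt _).mul (ih _))

/-- the evaluation as a double sum of refined numbers -/
theorem al_UU (a p r : ℕ) : al (p + r + 4) (UU a p r) =
    ∑ j ∈ Finset.range (p + 1), ∑ i ∈ Finset.range (j + 1), al (p + r + 2) (gap a (p + r + 3) i) := by
  rw [al_step (p + r + 3) (nat_UU a p r) (d_UU r p a), al_step (p + r + 2) (nat_XX r p a) (d_XX a r p), al_sum]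
  exact Finset.sum_congr rfl fun j _ => al_sum _ _ _

end Pool.Agent.V11307.RV
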