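import Mathlib
import Pool.Agent.V11307.RV.H1
import Pool.Agent.V11175.Sh13

/-!
# Transposition
-/

set_option autoImplicit false
set_option linter.unusedSectionVars false

namespace Pool.Agent.V11307.RV

open Pool.Agent.V11175.Sh Pool.Agent.V11175.Sh.Sh Pool.Agent.V11175.Sh.A
open Finset MvPolynomial

/-- the letters `t (z ^ i (1 - s + s z))` -/
noncomputable def cc (s : R) (i : ℕ) : A R := (1 - s) • tt i + s • tt (i + 1)

/-- products of consecutive letters -/
noncomputable def cp (s : R) : ℕ → ℕ → A R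
  | _, 0 => 1
  | b, m + 1 => cc s b * cp s (b + 1) m

lemma S_cc (s : R) (i : ℕ) : S (cc s i) = cc s (i + 1) := by
  rw [cc, cc, map_add, map_smul, map_smul, S_tt, S_tt]

lemma d_cc_mul (s : R) (i : ℕ) (w : A R) : d (cc s i * w) = S w - cc s i * d w := by
  rw [cc, add_mul, smul_mul_assoc, smul_mul_assoc, map_add, map_smul, map_smul, d_ttmul, d_ttmul, add_mul,
    smul_mul_assoc, smul_mul_assoc, smul_sub, smul_sub, sub_smul, one_smul]
  abel

lemma D3 (b : ℕ) : (D (tt b) * (tt (b + 1) * tt b) : A R) = 0 := by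
  have h1 := D_sq (K := R) b
  have h2 := cube (K := R) b
  have h3 := cube (K := R) (b + 1)
  have h4 := C (K := R) b (b + 1)
  have h5 := N (K := R) b
  have h6 : (D (tt b * (tt b * tt b)) : A R) = 0 := by rw [h2, map_zero]
  rw [map_mul, map_mul, D_tt, h1] at h6
  rw [D_tt]
  rw [mul_neg, neg_eq_zero] at h6
  exact h6

lemma dia1 (s : R) (m : ℕ) : ∀ b, D (tt b) * d (tt (b + 1) * cp s b m) = s ^ m • D (run b (m + 1)) := by
  induction m with
  | zero =>
    intro b
    rw [cp, mul_one, d_tt, mul_one, pow_zero, one_smul, run_one]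
  | succ m ih =>
    intro b
    have h1 := ih (b + 1)
    rw [d_ttmul] at h1
    have h2 : (S (cp s (b + 1) m) : A R) = (S (cp s (b + 1) m) - tt (b + 1 + 1) * d (cp s (b + 1) m)) +
      tt (b + 1 + 1) * d (cp s (b + 1) m) := by abel
    have h3 : d (tt (b + 1) * cp s b (m + 1)) = s • (D (tt (b + 1)) * S (cp s (b + 1) m)) +
        tt (b + 1) * (cc s b * d (cp s (b + 1) m)) := by
      rw [cp, d_ttmul, d_cc_mul, map_mul, S_cc, mul_sub, D_tt, cc]
      simp only [add_mul, sub_mul, smul_mul_assoc, smul_sub, sub_smul, one_smul]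
      abel
    have h4 : (D (tt b) * (s • (D (tt (b + 1)) * (tt (b + 1 + 1) * d (cp s (b + 1) m))) +
        tt (b + 1) * (cc s b * d (cp s (b + 1) m))) : A R) = 0 := by
      have hN := N (K := R) (b + 1)
      have e : (s • (D (tt (b + 1)) * (tt (b + 1 + 1) * d (cp s (b + 1) m))) +
        tt (b + 1) * (cc s b * d (cp s (b + 1) m)) : A R) = (1 - s) • (tt (b + 1) * tt b * d (cp s (b + 1) m)) +
        s • ((tt (b + 1) * tt (b + 1) + tt (b + 1 + 1) * tt (b + 1 + 1) - tt (b + 1) * tt (b + 1 + 1)) *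
          d (cp s (b + 1) m)) := by
        rw [D_tt, cc]
        simp only [add_mul, sub_mul, smul_mul_assoc, mul_smul_comm, mul_add, mul_sub, smul_add, smul_sub, mul_assoc]
        abel
      rw [e, hN, sub_self, zero_mul, smul_zero, add_zero, mul_smul_comm, ← mul_assoc, D3, zero_mul, smul_zero]
    rw [h3, h2, mul_add (D (tt (b + 1))), smul_add, add_assoc, mul_add, h4, add_zero, mul_smul_comm, h1, run_succ b (m + 1),
      map_mul, pow_succ, mul_smul_comm, smul_smul, mul_comm s]

/-- sums of gapped runs -/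
noncomputable def Zs (s : R) : ℕ → ℕ → A R
  | _, 0 => 1
  | a, m + 1 => tt a * Zs s (a + 1) m + s ^ (m + 1) • run (a + 1) (m + 1)

theorem dia2 (s : R) (m : ℕ) : ∀ a, d (tt a * cp s a m) = D (Zs s a m) := by
  induction m with
  | zero => intro a; rw [cp, Zs, mul_one, d_tt, map_one]
  | succ m ih =>
    intro a
    have h1 := ih (a + 1)
    have h2 := dia1 s m (a + 1)
    have hN := N (K := R) a
    have hD := D_sq (K := R) (a + 1)
    rw [d_ttmul] at h1 h2
    have h3 : (S (cp s (a + 1) m) : A R) = D (Zs s (a + 1) m) + tt (a + 1) * d (cp s (a + 1) m) := by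
      rw [← h1]; abel
    rw [cp, d_ttmul, d_cc_mul, map_mul, S_cc, Zs, map_add, map_smul, pow_succ', mul_smul, ← h2, map_mul, h3, D_tt, D_tt]
    have key : (cc s (a + 1) * (D (Zs s (a + 1) m) + tt (a + 1) * d (cp s (a + 1) m)) -
        tt a * (D (Zs s (a + 1) m) + tt (a + 1) * d (cp s (a + 1) m) - cc s a * d (cp s (a + 1) m))) -
        ((tt (a + 1) - tt a) * D (Zs s (a + 1) m) +
          s • ((tt (a + 1 + 1) - tt (a + 1)) * (D (Zs s (a + 1) m) + tt (a + 1) * d (cp s (a + 1) m) -
            tt (a + 1 + 1) * d (cp s (a + 1) m)))) =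
        (1 - s) • ((tt a * tt a + tt (a + 1) * tt (a + 1) - tt a * tt (a + 1)) * d (cp s (a + 1) m)) +
        s • (((tt (a + 1 + 1) - tt (a + 1)) * (tt (a + 1 + 1) - tt (a + 1)) - (- (tt (a + 1 + 1) * tt (a + 1)))) * d (cp s (a + 1) m)) := by
      simp only [cc, add_mul, sub_mul, smul_mul_assoc, mul_smul_comm, mul_add, mul_sub, smul_add, smul_sub, mul_assoc,
        sub_smul, one_smul, sub_neg_eq_add]
      abel
    rw [← sub_eq_zero, key, hN, hD]
    simp

end Pool.Agent.V11307.RV
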