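import Mathlib
import Pool.Agent.V11307.RV.H2

/-!
# Transposition
-/

set_option autoImplicit false
set_option linter.unusedSectionVars false

namespace Pool.Agent.V11307.RV

open Pool.Agent.V11175.Sh Pool.Agent.V11175.Sh.Sh Pool.Agent.V11175.Sh.A
open Finset MvPolynomial

lemma Zs_eq (s : R) (m : ℕ) : ∀ a, Zs s a m =
    ∑ j ∈ range (m + 1), s ^ j • (run a (m - j) * run (a + (m - j) + 1) j) := by
  induction m with
  | zero => intro a; simp [Zs, run_zero]
  | succ m ih =>
    intro a
    rw [Zs, ih, sum_range_succ _ (m + 1), Nat.sub_self, run_zero, one_mul, add_zero, mul_sum]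
    congr 1
    refine sum_congr rfl fun j hj => ?_
    have hj' : j < m + 1 := mem_range.1 hj
    rw [show m + 1 - j = (m - j) + 1 by omega, run_succ, show a + (m - j + 1) + 1 = a + 1 + (m - j) + 1 by ring,
      mul_smul_comm, mul_assoc]

lemma al_smul (m : ℕ) (c : ℚ) (w : A R) : al m ((C c : R) • w) = c * al m w := by
  rw [al, Sh.smul_apply, coeff_C_mul]; rfl

lemma nat_smul (c : ℚ) {w : A R} (hw : Nat' w) : Nat' ((C c : R) • w) := by
  intro φ l
  rw [Sh.smul_apply, Sh.smul_apply, hw, map_mul]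
  congr 1
  exact (φ.commutes c).symm

lemma FA_smul (c : R) {w : A R} (hw : FA (ap w)) : FA (ap (c • w)) := by
  intro l x y l'
  rw [Sh.smul_apply, Sh.smul_apply, hw, mul_neg]

lemma nat_cc (σ : ℚ) (i : ℕ) : Nat' (cc (C σ : R) i) := by
  rw [cc]
  have : (1 - C σ : R) = C (1 - σ) := by rw [C_sub, C_1]
  rw [this]
  exact (nat_smul _ (nat_tt i)).add (nat_smul _ (nat_tt (i + 1)))

lemma nat_cp (σ : ℚ) (m : ℕ) : ∀ b, Nat' (cp (C σ : R) b m) := by
  induction m with
  | zero => intro b; exact nat_one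
  | succ m ih => intro b; exact (nat_cc σ b).mul (ih (b + 1))

lemma stepA (σ : ℚ) (n : ℕ) : al (n + 1) (tt 1 * cp (C σ : R) 1 n) =
    ∑ j ∈ range (n + 1), σ ^ j * al n (run 1 (n - j) * run (n - j + 2) j) := by
  rw [al_step n ((nat_tt 1).mul (nat_cp σ n 1)) (dia2 (C σ) n 1), Zs_eq, al_sum]
  refine sum_congr rfl fun j _ => ?_
  rw [← map_pow, al_smul, show 1 + (n - j) + 1 = n - j + 2 by ring]

/-- values of products with a letter lie in the ideal generated by the values of the letter -/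
lemma ideal_t (I : Ideal R) (l : List R) : ∀ (g : R → R) (w : A R), (∀ x ∈ l, g x ∈ I) →
    ap (Sh.t g * w) l ∈ I := by
  induction l with
  | nil =>
    intro g w _
    rw [Sh.mul_def, mulF, mulAux, Sh.t_nil, zero_mul]
    exact I.zero_mem
  | cons x l ih =>
    intro g w hg
    rw [← Sh.E_apply, Sh.E_tmul, Sh.sub_apply, Sh.smul_apply]
    refine I.sub_mem (I.mul_mem_right _ (hg x (by simp))) (ih _ _ fun y hy => ?_)
    exact I.mul_mem_left _ (hg y (by simp [hy]))

lemma mem_pts (m : ℕ) : ∀ x ∈ pts m, ∃ i, x = 1 + X i := by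
  induction m with
  | zero => intro x hx; simp [pts] at hx
  | succ m ih =>
    intro x hx
    rw [pts, List.mem_cons] at hx
    rcases hx with rfl | hx
    · exact ⟨m, rfl⟩
    · exact ih x hx

/-- high powers of `1 - z` give zero -/
lemma al_high (m N : ℕ) (hm : 0 < m) (h : m ≤ N) (g : R → R) (w : A R) :
    al m (Sh.t (fun z => g z * (1 - z) ^ N) * w) = 0 := by
  set I : Ideal R := Ideal.span ((fun s => monomial s (1 : ℚ)) '' (Set.range fun i : ℕ => Finsupp.single i N)) with hI
  have h1 : ap (Sh.t (fun z => g z * (1 - z) ^ N) * w) (pts m) ∈ I := by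
    refine ideal_t I (pts m) _ w fun x hx => ?_
    obtain ⟨i, rfl⟩ := mem_pts m x hx
    refine I.mul_mem_left _ ?_
    have h2 : (1 - (1 + X i) : R) ^ N = (-1) ^ N * monomial (Finsupp.single i N) 1 := by
      rw [show (1 - (1 + X i) : R) = (-1) * X i by ring, mul_pow, X_pow_eq_monomial]
    rw [h2]
    refine I.mul_mem_left _ (Ideal.subset_span ⟨_, ⟨i, rfl⟩, rfl⟩)
  rw [hI, mem_ideal_span_monomial_image] at h1
  rw [al]
  by_contra hne
  obtain ⟨s, ⟨i, rfl⟩, hs⟩ := h1 (ex m) (by rw [mem_support_iff]; exact hne)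
  have h3 := hs i
  simp only [Finsupp.single_eq_same, ex_apply] at h3
  omega

/-- the letters `z (1 - z) ^ j` -/
noncomputable def hh (j : ℕ) : A R := Sh.t (fun z => z * (1 - z) ^ j)

lemma nat_hh (j : ℕ) : Nat' (hh j) := by
  intro φ c
  unfold hh
  match c with
  | [] => rw [List.map_nil, Sh.t_nil, map_zero]
  | [x] => rw [List.map_cons, List.map_nil, Sh.t_single, Sh.t_single]; simp
  | x :: y :: c => rw [List.map_cons, List.map_cons, Sh.t_cons2, Sh.t_cons2, map_zero]

lemma M_tt (σ : ℚ) (b : ℕ) : Sh.M (fun z : R => 1 - C σ + C σ * z) (tt b : A R) = cc (C σ) b := by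
  rw [tt, Sh.M_t, cc, tt, tt, ← Sh.t_smul, ← Sh.t_smul, ← Sh.t_add]
  congr 1
  funext z
  ring

lemma M_run (σ : ℚ) (m : ℕ) : ∀ b, Sh.M (fun z : R => 1 - C σ + C σ * z) (run b m : A R) = cp (C σ) b m := by
  induction m with
  | zero => intro b; rw [run_zero, cp, map_one]
  | succ m ih => intro b; rw [run_succ, cp, map_mul, ih, M_tt]

lemma al_M (m : ℕ) (σ : ℚ) (w : A R) (hw : Nat' w) (hF : FA (ap w)) :
    al m (Sh.M (fun z : R => 1 - C σ + C σ * z) w) = al m w := by
  rw [al, Sh.M_apply, coeff_mul_alt m w hw hF]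
  have : constantCoeff (((pts m).map (fun z : R => 1 - C σ + C σ * z)).prod) = 1 := by
    induction m with
    | zero => simp [pts]
    | succ m ih =>
      rw [pts, List.map_cons, List.prod_cons, map_mul, ih]
      simp
  rw [this, one_mul]

lemma FA_run (a m : ℕ) : FA (ap (run a m : A R)) := by
  induction m generalizing a with
  | zero => rw [run_zero]; exact FA.one _
  | succ m ih => rw [run_succ]; exact (FA.t _ _).mul (ih _)

/-- the basic recursion -/
lemma K_rec (σ : ℚ) (n j : ℕ) : al (n + 1) (hh j * cp (C σ) 1 n) =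
    al (n + 1) (hh j * run 1 n) + σ * al (n + 1) (hh (j + 1) * cp (C σ) 1 n) := by
  have h1 := al_M (n + 1) σ (hh j * run 1 n) ((nat_hh j).mul (nat_run 1 n)) ((FA.t _ _).mul (FA_run 1 n))
  have h2 : Sh.M (fun z : R => 1 - C σ + C σ * z) (hh j) = hh j - (C σ : R) • hh (j + 1) := by
    rw [hh, hh, Sh.M_t, ← Sh.t_smul, ← Sh.t_sub]
    congr 1
    funext z
    ring
  rw [map_mul, M_run, h2, sub_mul, smul_mul_assoc, al_sub, al_smul] at h1
  rw [← h1]; ring

lemma K_sum (σ : ℚ) (n : ℕ) : ∀ j, al (n + 1) (hh 0 * cp (C σ) 1 n) =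
    ∑ i ∈ range j, σ ^ i * al (n + 1) (hh i * run 1 n) + σ ^ j * al (n + 1) (hh j * cp (C σ) 1 n) := by
  intro j
  induction j with
  | zero => simp
  | succ j ih => rw [ih, sum_range_succ, K_rec σ n j]; ring

lemma hh_high (n i : ℕ) (h : n < i) (w : A R) : al (n + 1) (hh i * w) = 0 :=
  al_high (n + 1) i (Nat.succ_pos n) h (fun z => z) w

lemma hh_zero : hh 0 = tt 1 := by
  rw [hh, tt]; congr 1; funext z; ring

/-- transposition, difference form -/
theorem trans_diff (n j : ℕ) (h : j ≤ n) :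
    al (n + 1) (hh j * run 1 n) = al n (run 1 (n - j) * run (n - j + 2) j) := by
  have h1 : ∀ σ : ℚ, ∑ i ∈ range (n + 1), σ ^ i * al (n + 1) (hh i * run 1 n) =
      ∑ i ∈ range (n + 1), σ ^ i * al n (run 1 (n - i) * run (n - i + 2) i) := by
    intro σ
    rw [← stepA, ← hh_zero, K_sum σ n (n + 1), hh_high n (n + 1) (Nat.lt_succ_self n), mul_zero, add_zero]
  set P : Polynomial ℚ := ∑ i ∈ range (n + 1), Polynomial.C (al (n + 1) (hh i * run 1 n)) * Polynomial.X ^ i with hP
  set Q : Polynomial ℚ := ∑ i ∈ range (n + 1),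
    Polynomial.C (al n (run 1 (n - i) * run (n - i + 2) i)) * Polynomial.X ^ i with hQ
  have h2 : P = Q := by
    apply Polynomial.funext
    intro σ
    rw [hP, hQ, Polynomial.eval_finset_sum, Polynomial.eval_finset_sum]
    simp only [Polynomial.eval_mul, Polynomial.eval_C, Polynomial.eval_pow, Polynomial.eval_X]
    have := h1 σ
    simp only [mul_comm (σ ^ _)] at this
    exact this
  have h3 := congrArg (fun p => Polynomial.coeff p j) h2
  simp only [hP, hQ, Polynomial.finset_sum_coeff, Polynomial.coeff_C_mul, Polynomial.coeff_X_pow] at h3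
  simpa [Nat.lt_succ_iff.2 h] using h3

/-- transposition -/
theorem trans (n y : ℕ) : al (n + 1) (tt (1 + y) * run 1 n) =
    ∑ i ∈ range (n + 1), (-1) ^ i * (y.choose i : ℚ) * al n (run 1 (n - i) * run (n - i + 2) i) := by
  have h1 : (tt (1 + y) : A R) = ∑ i ∈ range (y + 1), (C ((-1) ^ i * (y.choose i : ℚ)) : R) • hh i := by
    rw [tt]
    apply Sh.ext'
    intro l
    rw [Sh.sum_apply]
    simp only [Sh.smul_apply]
    match l with
    | [] => simp [hh, Sh.t_nil]
    | [x] =>
      simp only [hh, Sh.t_single]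
      have h := (Commute.all (-(1 - x)) 1).add_pow y
      rw [show -(1 - x) + 1 = x by ring] at h
      rw [pow_add, pow_one, h, mul_sum]
      refine sum_congr rfl fun i _ => ?_
      rw [neg_pow, one_pow, C_mul, map_pow, C_neg, C_1, map_natCast]
      ring
    | x :: y :: c => simp [hh, Sh.t_cons2]
  rw [h1, sum_mul, al_sum]
  have h2 : ∀ N, ∑ i ∈ range (N + 1), al (n + 1) ((C ((-1) ^ i * (y.choose i : ℚ)) : R) • hh i * run 1 n) =
      ∑ i ∈ range (N + 1), (-1) ^ i * (y.choose i : ℚ) * al (n + 1) (hh i * run 1 n) := by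
    intro N
    refine sum_congr rfl fun i _ => ?_
    rw [smul_mul_assoc, al_smul]
  rw [h2]
  have h3 : ∑ i ∈ range (y + 1), (-1) ^ i * (y.choose i : ℚ) * al (n + 1) (hh i * run 1 n) =
      ∑ i ∈ range (n + 1), (-1) ^ i * (y.choose i : ℚ) * al (n + 1) (hh i * run 1 n) := by
    rcases le_total y n with h | h
    · refine sum_subset (range_subset_range.2 (by omega)) fun i _ hi => ?_
      rw [Nat.choose_eq_zero_of_lt (by rw [mem_range] at hi; omega)]
      simp
    · refine (sum_subset (range_subset_range.2 (by omega)) fun i _ hi => ?_).symm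
      rw [hh_high n i (by rw [mem_range] at hi; omega), mul_zero]
  rw [h3]
  refine sum_congr rfl fun i hi => ?_
  rw [trans_diff n i (by rw [mem_range] at hi; omega)]

end Pool.Agent.V11307.RV
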