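import Mathlib
import Pool.Agent.V11175.Sh5

/-!
# Determinantal formulas for two families of words
-/

set_option autoImplicit false
set_option linter.unusedSectionVars false

namespace Pool.Agent.V11307.RV

open Pool.Agent.V11175.Sh Pool.Agent.V11175.Sh.Sh Pool.Agent.V11175.Sh.A
open Finset

section gen

variable {K : Type} [CommRing K]

theorem detI (n : ℕ) (a b : Fin (n + 1) → K) :
    ∑ m : Fin (n + 1), (-1) ^ ((m : ℕ) + n) * (∏ j, (a m - b j)) *
      (Matrix.of (fun i k : Fin n => (a (m.succAbove i)) ^ ((k : ℕ) + 1) - (b (m.succAbove i)) ^ ((k : ℕ) + 1))).det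
    = (Matrix.of (fun i k : Fin (n + 1) => a i ^ ((k : ℕ) + 1) - b i ^ ((k : ℕ) + 1))).det := by
  classical
  set M : Matrix (Fin (n + 1)) (Fin (n + 1)) K :=
    Matrix.of (fun i k : Fin (n + 1) => a i ^ ((k : ℕ) + 1) - b i ^ ((k : ℕ) + 1)) with hM
  set P : Polynomial K := ∏ j, (Polynomial.X - Polynomial.C (b j)) with hP
  have hPd : P.natDegree ≤ n + 1 := by
    rw [hP]
    refine (Polynomial.natDegree_prod_le _ _).trans ?_
    refine (Finset.sum_le_sum (fun i _ => Polynomial.natDegree_X_sub_C_le (b i))).trans ?_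
    simp
  have hPc : P.coeff (n + 1) = 1 := by
    have := Polynomial.coeff_prod_of_natDegree_le (s := (Finset.univ : Finset (Fin (n + 1))))
      (fun j => (Polynomial.X - Polynomial.C (b j))) 1 (fun j _ => Polynomial.natDegree_X_sub_C_le (b j))
    rw [Finset.card_univ, Fintype.card_fin, mul_one] at this
    rw [hP, this]
    simp
  have hev : ∀ x, P.eval x = ∑ r ∈ Finset.range (n + 2), P.coeff r * x ^ r := by
    intro x
    exact Polynomial.eval_eq_sum_range' (by omega) x
  have hPb : ∀ i, P.eval (b i) = 0 := by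
    intro i
    rw [hP, Polynomial.eval_prod]
    exact Finset.prod_eq_zero (Finset.mem_univ i) (by simp)
  have hcol : ∀ i, ∏ j, (a i - b j) = ∑ k : Fin (n + 1), P.coeff ((k : ℕ) + 1) • M i k := by
    intro i
    have h1 : ∏ j, (a i - b j) = P.eval (a i) := by
      rw [hP, Polynomial.eval_prod]; simp
    have h2 : P.eval (a i) = P.eval (a i) - P.eval (b i) := by rw [hPb, sub_zero]
    rw [h1, h2, hev, hev, ← Finset.sum_sub_distrib, Finset.sum_range_succ', pow_zero, pow_zero, sub_self,
      add_zero, Finset.sum_range]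
    refine Finset.sum_congr rfl fun k _ => ?_
    rw [hM, Matrix.of_apply, smul_eq_mul]
    ring
  have hdet := Matrix.det_updateCol_sum M (Fin.last n) (fun k => P.coeff ((k : ℕ) + 1))
  rw [Fin.val_last, hPc, one_smul] at hdet
  rw [← hdet, Matrix.det_succ_column _ (Fin.last n)]
  refine Finset.sum_congr rfl fun m _ => ?_
  rw [Matrix.updateCol_self, hcol, Fin.val_last]
  congr 2
  ext i k
  rw [Matrix.submatrix_apply, Fin.succAbove_last, Matrix.updateCol_ne (Fin.castSucc_lt_last k).ne]
  rw [hM]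
  simp

/-- last letter expansion -/
theorem ap_mul_t {P : Type} (f : P → P → K) (n : ℕ) : ∀ (w : Sh f) (g : P → K) (z : Fin (n + 1) → P),
    ap (w * t g) (List.ofFn z) = ∑ m : Fin (n + 1), (-1) ^ ((m : ℕ) + n) * g (z m) *
      (∏ j : Fin n, f (z (m.succAbove j)) (z m)) * ap w (List.ofFn (fun j => z (m.succAbove j))) := by
  induction n with
  | zero =>
    intro w g z
    rw [List.ofFn_succ, ← E_apply, E_mul, Sh.add_apply, M_t, E_t, mul_smul_comm, mul_one, Sh.smul_apply, M_apply]
    have h0 : ap (E (z 0) w * t (fun y => f (z 0) y * g y)) (List.ofFn fun i : Fin 0 => z i.succ) = 0 := by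
      rw [List.ofFn_zero]
      change ap (E (z 0) w) [] * ap (t _ : Sh f) [] = 0
      rw [t_nil, mul_zero]
    rw [h0]
    simp
  | succ n ih =>
    intro w g z
    have hL : ap (w * t g) (List.ofFn z) =
        ap (E (z 0) w * t (fun y => f (z 0) y * g y)) (List.ofFn (fun j => z j.succ)) +
        g (z 0) * (((List.ofFn (fun j => z j.succ)).map (fun y => -f y (z 0))).prod *
          ap w (List.ofFn (fun j => z j.succ))) := by
      rw [List.ofFn_succ, ← E_apply, E_mul, Sh.add_apply, M_t, E_t, mul_smul_comm, mul_one, Sh.smul_apply, M_apply]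
    rw [hL, ih, Fin.sum_univ_succ (n := n + 1)]
    have h1 : (((List.ofFn (fun j : Fin (n + 1) => z j.succ)).map (fun y => -f y (z 0))).prod) =
          (-1) ^ (n + 1) * ∏ j : Fin (n + 1), f (z j.succ) (z 0) := by
      rw [List.map_ofFn, List.prod_ofFn]
      simp only [Function.comp]
      rw [show (∏ i : Fin (n + 1), -f (z i.succ) (z 0)) = ∏ i : Fin (n + 1), (-1) * f (z i.succ) (z 0) from
          Finset.prod_congr rfl (fun i _ => by ring), Finset.prod_mul_distrib, Finset.prod_const, Finset.card_univ,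
          Fintype.card_fin]
    have h2 : ∀ m : Fin (n + 1), (-1) ^ (((m.succ : Fin (n + 2)) : ℕ) + (n + 1)) * g (z m.succ) *
      (∏ j : Fin (n + 1), f (z (m.succ.succAbove j)) (z m.succ)) * ap w (List.ofFn (fun j => z (m.succ.succAbove j))) =
        (-1) ^ ((m : ℕ) + n) * (f (z 0) (z m.succ) * g (z m.succ)) *
        (∏ j : Fin n, f (z (m.succAbove j).succ) (z m.succ)) *
          ap (E (z 0) w) (List.ofFn (fun j => z (m.succAbove j).succ)) := by
      intro m
      rw [Fin.prod_univ_succ, E_apply, List.ofFn_succ (f := fun j => z (m.succ.succAbove j))]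
      simp only [Fin.succ_succAbove_succ, Fin.succ_succAbove_zero, Fin.val_succ]
      ring
    rw [Finset.sum_congr rfl (fun m _ => h2 m), h1]
    simp only [Fin.zero_succAbove, Fin.val_zero, zero_add]
    ring

/-- the symmetric product of the `z_i z_j - 1` -/
def QQ : (n : ℕ) → (Fin n → K) → K
  | 0, _ => 1
  | n + 1, z => (∏ j : Fin n, (z 0 * z j.succ - 1)) * QQ n (fun j => z j.succ)

theorem QQ_succAbove (n : ℕ) : ∀ (z : Fin (n + 1) → K) (m : Fin (n + 1)),
    QQ (n + 1) z = (∏ j : Fin n, (z m * z (m.succAbove j) - 1)) * QQ n (fun j => z (m.succAbove j)) := by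
  induction n with
  | zero =>
    intro z m
    simp [QQ]
  | succ n ih =>
    intro z m
    refine Fin.cases ?_ (fun m => ?_) m
    · simp only [Fin.zero_succAbove]; rw [QQ]
    · rw [QQ, ih _ m, Fin.prod_univ_succ (n := n) (f := fun j => (z m.succ * z (m.succ.succAbove j) - 1)), QQ,
        Fin.prod_univ_succAbove (n := n) (f := fun j => (z 0 * z j.succ - 1)) m]
      simp only [Fin.succ_succAbove_succ, Fin.succ_succAbove_zero]
      ring

/-- the word of a list -/
def wl (l : List ℕ) : A K := (l.map tt).prod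

lemma wl_append (l l' : List ℕ) : (wl (l ++ l') : A K) = wl l * wl l' := by
  simp [wl]

lemma wl_single (a : ℕ) : (wl [a] : A K) = tt a := by simp [wl]

lemma S_wl (l : List ℕ) : S (wl l : A K) = wl (l.map (· + 1)) := by
  rw [wl, wl, map_list_prod, List.map_map, List.map_map]
  congr 1
  refine List.map_congr_left fun a _ => ?_
  simp [S_tt]

/-- reversed run -/
def rl : ℕ → List ℕ
  | 0 => []
  | n + 1 => (rl n).map (· + 1) ++ [1]

/-- even run -/
def vl : ℕ → List ℕ
  | 0 => []
  | n + 1 => vl n ++ [2 * n + 2]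

end gen

section field

variable {K : Type} [Field K]

theorem W_field (n : ℕ) : ∀ (z : Fin n → K), (∀ i, z i ≠ 0) →
    ap (wl (vl n) : A K) (List.ofFn z) * QQ n z *
      ∏ i, ((z i ^ 2 - z i) - (1 - z i) / z i ^ 2) =
    (∏ i, z i) ^ (2 * n) * (Matrix.of (fun i k : Fin n => (z i ^ 2 - z i) ^ ((k : ℕ) + 1) -
      ((1 - z i) / z i ^ 2) ^ ((k : ℕ) + 1))).det := by
  induction n with
  | zero =>
    intro z _
    simp [vl, wl, QQ]
    rfl
  | succ n ih =>
    intro z hz
    rw [vl, wl_append, wl_single, tt, ap_mul_t, ← detI n (fun i => z i ^ 2 - z i) (fun i => (1 - z i) / z i ^ 2),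
      Finset.sum_mul, Finset.sum_mul, Finset.mul_sum]
    refine Finset.sum_congr rfl fun m _ => ?_
    have h1 := ih (fun j => z (m.succAbove j)) (fun i => hz _)
    rw [QQ_succAbove n z m, Fin.prod_univ_succAbove (fun i => ((z i ^ 2 - z i) - (1 - z i) / z i ^ 2)) m,
      Fin.prod_univ_succAbove (fun i => z i) m, Fin.prod_univ_succAbove (fun j => z m ^ 2 - z m - (1 - z j) / z j ^ 2) m]
    have h2 : (∏ j : Fin n, fa (z (m.succAbove j)) (z m)) * (∏ j : Fin n, (z m * z (m.succAbove j) - 1)) =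
        (∏ j : Fin n, z (m.succAbove j)) ^ 2 *
          ∏ j : Fin n, (z m ^ 2 - z m - (1 - z (m.succAbove j)) / z (m.succAbove j) ^ 2) := by
      rw [← Finset.prod_mul_distrib, ← Finset.prod_pow, ← Finset.prod_mul_distrib]
      refine Finset.prod_congr rfl fun j _ => ?_
      have := hz (m.succAbove j)
      rw [fa]
      field_simp
      ring
    have h3 : 2 * (n + 1) = 2 * n + 2 := by ring
    rw [h3]
    linear_combination ((-1) ^ ((m : ℕ) + n) * z m ^ (2 * n + 2) * (z m ^ 2 - z m - (1 - z m) / z m ^ 2) *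
      (∏ j : Fin n, (fa (z (m.succAbove j)) (z m))) * (∏ j : Fin n, (z m * z (m.succAbove j) - 1))) * h1 +
      ((-1) ^ ((m : ℕ) + n) * z m ^ (2 * n + 2) * (z m ^ 2 - z m - (1 - z m) / z m ^ 2) *
      ((∏ i, z (m.succAbove i)) ^ (2 * n) * (Matrix.of (fun i k : Fin n => (z (m.succAbove i) ^ 2 - z (m.succAbove i)) ^ ((k : ℕ) + 1) -
      ((1 - z (m.succAbove i)) / z (m.succAbove i) ^ 2) ^ ((k : ℕ) + 1))).det)) * h2

theorem R_field (n : ℕ) : ∀ (z : Fin n → K), (∀ i, z i ≠ 0) → (∀ i, z i - 1 ≠ 0) →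
    ap (wl (rl n) : A K) (List.ofFn z) * QQ n z *
      ∏ i, ((1 / (z i * (z i - 1)) - (- z i ^ 2 / (z i - 1))) * (z i - 1)) =
    (∏ i, (z i * (z i - 1))) ^ n * (Matrix.of (fun i k : Fin n => (1 / (z i * (z i - 1))) ^ ((k : ℕ) + 1) -
      (- z i ^ 2 / (z i - 1)) ^ ((k : ℕ) + 1))).det := by
  induction n with
  | zero =>
    intro z _ _
    simp [rl, wl, QQ]
    rfl
  | succ n ih =>
    intro z hz hz1
    rw [rl, wl_append, wl_single, tt, ap_mul_t, ← detI n (fun i => 1 / (z i * (z i - 1))) (fun i => - z i ^ 2 / (z i - 1)),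
      Finset.sum_mul, Finset.sum_mul, Finset.mul_sum]
    refine Finset.sum_congr rfl fun m _ => ?_
    have h1 := ih (fun j => z (m.succAbove j)) (fun i => hz _) (fun i => hz1 _)
    rw [QQ_succAbove n z m, Fin.prod_univ_succAbove (fun i => ((1 / (z i * (z i - 1)) - (- z i ^ 2 / (z i - 1))) * (z i - 1))) m,
      Fin.prod_univ_succAbove (fun i => (z i * (z i - 1))) m,
      Fin.prod_univ_succAbove (fun j => 1 / (z m * (z m - 1)) - (- z j ^ 2 / (z j - 1))) m]
    rw [← S_wl, S, M_apply, List.map_ofFn, List.prod_ofFn]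
    simp only [Function.comp]
    have h2 : (∏ j : Fin n, fa (z (m.succAbove j)) (z m)) * (∏ j : Fin n, (z m * z (m.succAbove j) - 1)) =
        (∏ j : Fin n, (z (m.succAbove j) - 1)) * (z m * (z m - 1)) ^ n *
          ∏ j : Fin n, (1 / (z m * (z m - 1)) - (- z (m.succAbove j) ^ 2 / (z (m.succAbove j) - 1))) := by
      have e1 : (z m * (z m - 1)) ^ n = ∏ _j : Fin n, (z m * (z m - 1)) := by simp
      rw [e1, ← Finset.prod_mul_distrib, ← Finset.prod_mul_distrib, ← Finset.prod_mul_distrib]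
      refine Finset.prod_congr rfl fun j _ => ?_
      have := hz m
      have := hz1 m
      have := hz1 (m.succAbove j)
      rw [fa]
      field_simp
      ring
    have h4 : (∏ i : Fin n, (z (m.succAbove i) * (z (m.succAbove i) - 1))) =
      (∏ i : Fin n, z (m.succAbove i)) * (∏ i : Fin n, (z (m.succAbove i) - 1)) := Finset.prod_mul_distrib
    rw [h4] at h1 ⊢
    rw [mul_pow _ _ (n + 1)]
    linear_combination ((-1) ^ ((m : ℕ) + n) * z m ^ 1 * ((1 / (z m * (z m - 1)) - (- z m ^ 2 / (z m - 1))) * (z m - 1)) *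
      (∏ j : Fin n, (fa (z (m.succAbove j)) (z m))) * (∏ j : Fin n, (z m * z (m.succAbove j) - 1)) *
      (∏ i : Fin n, z (m.succAbove i))) * h1 +
      ((-1) ^ ((m : ℕ) + n) * z m ^ 1 * ((1 / (z m * (z m - 1)) - (- z m ^ 2 / (z m - 1))) * (z m - 1)) *
      (∏ i : Fin n, z (m.succAbove i)) *
      (((∏ i : Fin n, z (m.succAbove i)) * (∏ i : Fin n, (z (m.succAbove i) - 1))) ^ n *
        (Matrix.of (fun i k : Fin n => (1 / (z (m.succAbove i) * (z (m.succAbove i) - 1))) ^ ((k : ℕ) + 1) -
      (- z (m.succAbove i) ^ 2 / (z (m.succAbove i) - 1)) ^ ((k : ℕ) + 1))).det)) * h2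

end field

end Pool.Agent.V11307.RV
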