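import Mathlib
import Pool.Agent.V11307.RV.G1

/-!
# Polynomial form of the determinants, and the column operations
-/

set_option autoImplicit false
set_option linter.unusedSectionVars false

namespace Pool.Agent.V11307.RV

open Pool.Agent.V11175.Sh Pool.Agent.V11175.Sh.Sh Pool.Agent.V11175.Sh.A
open Finset

section gen

variable {K : Type} [CommRing K]

/-- columns for the even word -/
def om (n k : ℕ) (z : K) : K := (-1) ^ k * z ^ (2 * (n - 1 - k)) * (z - 1) ^ k * (1 - (-z ^ 3) ^ (k + 1))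

/-- columns for the reversed word -/
def er (N k : ℕ) (z : K) : K := (z * (z - 1)) ^ (N - 1 - k) * (1 - (-z ^ 3) ^ (k + 1))

/-- the columns in the stages of the reduction -/
def col (n s c : ℕ) (z : K) : K :=
  if Odd c then (z - 1) ^ (2 * s) * z * om n ((c - 1) / 2) z
  else (z - 1) ^ (2 * (s - 1 - c / 2)) * z ^ (2 * (n - c / 2)) * (1 + z ^ (3 * c + 3))

end gen

section field

variable {K : Type} [Field K]

theorem W_poly (n : ℕ) (z : Fin n → K) (hz : ∀ i, z i ≠ 0) (hz1 : ∀ i, z i - 1 ≠ 0) :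
    ap (wl (vl n) : A K) (List.ofFn z) * QQ n z * ∏ i, (1 + z i ^ 3) =
    (∏ i, z i) ^ 2 * (Matrix.of (fun i k : Fin n => om n k (z i))).det := by
  have h := W_field n z hz
  have e1 : (∏ i, z i) ^ (2 * n) * (Matrix.of (fun i k : Fin n => (z i ^ 2 - z i) ^ ((k : ℕ) + 1) -
      ((1 - z i) / z i ^ 2) ^ ((k : ℕ) + 1))).det = (∏ i, (z i - 1)) * (Matrix.of (fun i k : Fin n => om n k (z i))).det := by
    rw [← Finset.prod_pow, ← Matrix.det_mul_column, ← Matrix.det_mul_column]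
    congr 1
    ext i k
    simp only [Matrix.of_apply]
    have hzi := hz i
    obtain ⟨r, hr⟩ : ∃ r, n = k + 1 + r := ⟨n - (k + 1), by omega⟩
    rw [om, show n - 1 - (k : ℕ) = r by omega, show 2 * n = 2 * ((k : ℕ) + 1) + 2 * r by omega]
    have h1 : z i ^ (2 * ((k : ℕ) + 1)) * ((z i ^ 2 - z i) ^ ((k : ℕ) + 1) - ((1 - z i) / z i ^ 2) ^ ((k : ℕ) + 1)) =
        (z i - 1) ^ ((k : ℕ) + 1) * ((z i ^ 3) ^ ((k : ℕ) + 1) - (-1) ^ ((k : ℕ) + 1)) := by
      rw [div_pow, ← pow_mul, mul_sub, mul_div_cancel₀ _ (pow_ne_zero _ hzi)]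
      rw [show (z i ^ 2 - z i) = z i * (z i - 1) by ring, show (1 - z i) = (-1) * (z i - 1) by ring, mul_pow, mul_pow,
        pow_mul]
      ring
    have h2 : (-z i ^ 3) ^ ((k : ℕ) + 1) = (-1) ^ ((k : ℕ) + 1) * (z i ^ 3) ^ ((k : ℕ) + 1) := by
      rw [← mul_pow]; ring
    have h3 : ((-1 : K) ^ ((k : ℕ) + 1)) * (-1) ^ ((k : ℕ) + 1) = 1 := by
      rw [← mul_pow]; simp
    rw [pow_add, mul_assoc, mul_comm (z i ^ (2 * r)), ← mul_assoc, h1, h2]
    have h4 : ((-1 : K) ^ (k : ℕ)) = - (-1) ^ ((k : ℕ) + 1) := by rw [pow_succ]; ring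
    rw [h4]
    linear_combination (-(z i ^ 3) ^ ((k : ℕ) + 1) * z i ^ (2 * r) * (z i - 1) ^ ((k : ℕ) + 1)) * h3
  have e2 : (∏ i, ((z i ^ 2 - z i) - (1 - z i) / z i ^ 2)) * (∏ i, z i) ^ 2 = (∏ i, (z i - 1)) * ∏ i, (1 + z i ^ 3) := by
    rw [← Finset.prod_pow, ← Finset.prod_mul_distrib, ← Finset.prod_mul_distrib]
    refine Finset.prod_congr rfl fun i _ => ?_
    have hzi := hz i
    field_simp
    ring
  rw [e1] at h
  have h0 : (∏ i, (z i - 1)) ≠ 0 := Finset.prod_ne_zero_iff.2 fun i _ => hz1 i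
  apply mul_left_cancel₀ h0
  linear_combination ((∏ i, z i) ^ 2) * h - ap (wl (vl n) : A K) (List.ofFn z) * QQ n z * e2

theorem R_poly (N : ℕ) (z : Fin N → K) (hz : ∀ i, z i ≠ 0) (hz1 : ∀ i, z i - 1 ≠ 0) :
    ap (wl (rl N) : A K) (List.ofFn z) * QQ N z * ∏ i, (1 + z i ^ 3) =
    (∏ i, z i) * (Matrix.of (fun i k : Fin N => er N k (z i))).det := by
  have h := R_field N z hz hz1
  have e1 : (∏ i, (z i * (z i - 1))) ^ N * (Matrix.of (fun i k : Fin N => (1 / (z i * (z i - 1))) ^ ((k : ℕ) + 1) -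
      (- z i ^ 2 / (z i - 1)) ^ ((k : ℕ) + 1))).det = (Matrix.of (fun i k : Fin N => er N k (z i))).det := by
    rw [← Finset.prod_pow, ← Matrix.det_mul_column]
    congr 1
    ext i k
    simp only [Matrix.of_apply]
    have hzi := hz i
    have hz1i := hz1 i
    obtain ⟨r, hr⟩ : ∃ r, N = k + 1 + r := ⟨N - (k + 1), by omega⟩
    have hN : (z i * (z i - 1)) ^ N = (z i * (z i - 1)) ^ r * (z i * (z i - 1)) ^ ((k : ℕ) + 1) := by
      rw [← pow_add]; congr 1; omega
    rw [er, show N - 1 - (k : ℕ) = r by omega, hN, mul_assoc]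
    congr 1
    rw [mul_sub, ← mul_pow, ← mul_pow]
    congr 2
    · field_simp
      simp
    · field_simp
  have e2 : (∏ i, ((1 / (z i * (z i - 1)) - (- z i ^ 2 / (z i - 1))) * (z i - 1))) * (∏ i, z i) = ∏ i, (1 + z i ^ 3) := by
    rw [← Finset.prod_mul_distrib]
    refine Finset.prod_congr rfl fun i _ => ?_
    have hzi := hz i
    have hz1i := hz1 i
    field_simp
    ring
  rw [e1] at h
  rw [← e2]
  linear_combination (∏ i, z i) * h

open Polynomial in
/-- reduction of the negative powers -/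
noncomputable def qq : ℕ → Polynomial ℤ
  | 0 => 0
  | 1 => -(3 * X + X ^ 2)
  | 2 => (-(3 * X + X ^ 2) : Polynomial ℤ).divX + C ((-(3 * X + X ^ 2) : Polynomial ℤ).coeff 0) * (-(3 * X + X ^ 2)) +
      (3 * X + X ^ 2) * (-(3 * X + X ^ 2)) - X
  | n + 3 => (qq (n + 2)).divX + C ((qq (n + 2)).coeff 0) * (-(3 * X + X ^ 2)) + (3 * X + X ^ 2) * qq (n + 2)
      - 3 * qq (n + 1) - qq n

open Polynomial in
lemma qq_step (a b : K) (ha : a ≠ 0) (hb : b ≠ 0) (hl : a⁻¹ + 3 * a + a ^ 2 = b⁻¹ + 3 * b + b ^ 2)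
    (q : Polynomial ℤ) :
    (a⁻¹ + 3 * a + a ^ 2) * (aeval a q - aeval b q) =
      aeval a (q.divX + C (q.coeff 0) * (-(3 * X + X ^ 2)) + (3 * X + X ^ 2) * q) -
      aeval b (q.divX + C (q.coeff 0) * (-(3 * X + X ^ 2)) + (3 * X + X ^ 2) * q) := by
  have h1 : ∀ x : K, aeval x q = aeval x q.divX * x + (q.coeff 0 : K) := by
    intro x
    conv_lhs => rw [← divX_mul_X_add q]
    simp
  have e : (a⁻¹ + 3 * a + a ^ 2) * (aeval a q - aeval b q) =
      (a⁻¹ + 3 * a + a ^ 2) * aeval a q - (b⁻¹ + 3 * b + b ^ 2) * aeval b q := by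
    rw [mul_sub]; nth_rewrite 2 [hl]; ring
  rw [e]
  simp only [map_add, map_mul, map_neg, map_pow, aeval_X, aeval_C]
  have h3 : ∀ x : K, (aeval x (3 : Polynomial ℤ)) = 3 := fun x => map_ofNat (aeval x) 3
  rw [h3, h3]
  have ea : a⁻¹ * aeval a q = aeval a q.divX + (q.coeff 0 : K) * a⁻¹ := by
    rw [h1 a]; field_simp
  have eb : b⁻¹ * aeval b q = aeval b q.divX + (q.coeff 0 : K) * b⁻¹ := by
    rw [h1 b]; field_simp
  have ec : (algebraMap ℤ K) (q.coeff 0) = (q.coeff 0 : K) := by simp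
  rw [ec]
  linear_combination ea - eb + (q.coeff 0 : K) * hl

open Polynomial in
theorem qq_rel (a b : K) (ha : a ≠ 0) (hb : b ≠ 0) (hl : a⁻¹ + 3 * a + a ^ 2 = b⁻¹ + 3 * b + b ^ 2) (n : ℕ) :
    a⁻¹ ^ n - b⁻¹ ^ n = aeval a (qq n) - aeval b (qq n) := by
  have h3 : ∀ x : K, (aeval x (3 : Polynomial ℤ)) = 3 := fun x => map_ofNat (aeval x) 3
  induction n using Nat.strong_induction_on with
  | _ n ih =>
    match n with
    | 0 => simp [qq]
    | 1 =>
      simp only [qq, map_add, map_mul, map_neg, map_pow, aeval_X, h3]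
      linear_combination hl
    | 2 =>
      have h1 := ih 1 (by omega)
      have h2 := qq_step a b ha hb hl (qq 1)
      rw [← h1] at h2
      have e : qq 2 = (qq 1).divX + C ((qq 1).coeff 0) * (-(3 * X + X ^ 2)) + (3 * X + X ^ 2) * qq 1 - X := by
        simp only [qq]
      rw [e]
      simp only [map_sub, aeval_X]
      have ha' : a * a⁻¹ = 1 := mul_inv_cancel₀ ha
      have hb' : b * b⁻¹ = 1 := mul_inv_cancel₀ hb
      linear_combination h2 - (3 + a) * ha' + (3 + b) * hb' + b⁻¹ * hl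
    | n + 3 =>
      have h1 := ih (n + 2) (by omega)
      have h1' := ih (n + 1) (by omega)
      have h1'' := ih n (by omega)
      have h2 := qq_step a b ha hb hl (qq (n + 2))
      rw [← h1] at h2
      have e : qq (n + 3) = ((qq (n + 2)).divX + C ((qq (n + 2)).coeff 0) * (-(3 * X + X ^ 2)) +
        (3 * X + X ^ 2) * qq (n + 2)) - 3 * qq (n + 1) - qq n := by
        rw [qq]
      rw [e]
      simp only [map_sub, map_mul (aeval a), map_mul (aeval b), h3] at h2 ⊢
      have ha' : a * a⁻¹ = 1 := mul_inv_cancel₀ ha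
      have hb' : b * b⁻¹ = 1 := mul_inv_cancel₀ hb
      simp only [map_add, map_mul, h3] at h2 ⊢
      linear_combination h2 - 3 * h1' - h1'' - (3 * a⁻¹ ^ (n + 1) + a⁻¹ ^ n * (a * a⁻¹ + 1)) * ha' +
        (3 * b⁻¹ ^ (n + 1) + b⁻¹ ^ n * (b * b⁻¹ + 1)) * hb' + b⁻¹ ^ (n + 2) * hl

open Polynomial in
theorem qq_coeff (n : ℕ) : (∀ j, 2 * n < j → (qq n).coeff j = 0) ∧ (n ≠ 0 → (qq n).coeff (2 * n) = -1) := by
  have hX : ∀ j, (-(3 * X + X ^ 2) : Polynomial ℤ).coeff j = -(3 * (if j = 1 then 1 else 0) + (if j = 2 then 1 else 0)) := by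
    intro j
    rw [coeff_neg, coeff_add, coeff_X_pow, show (3 : Polynomial ℤ) * X = Polynomial.C 3 * X from rfl, coeff_C_mul, coeff_X]
    congr 2
    simp [eq_comm]
  have hm : ∀ (q : Polynomial ℤ) j, ((3 * X + X ^ 2) * q).coeff (j + 2) = 3 * q.coeff (j + 1) + q.coeff j := by
    intro q j
    rw [add_mul, coeff_add, show (3 : Polynomial ℤ) * X * q = Polynomial.C 3 * (q * X) by rw [show (3 : Polynomial ℤ) = Polynomial.C 3 from rfl]; ring,
      coeff_C_mul, mul_comm (X ^ 2) q, coeff_mul_X_pow, coeff_mul_X]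
  have h3 : ∀ (q : Polynomial ℤ) j, ((3 : Polynomial ℤ) * q).coeff j = 3 * q.coeff j := by
    intro q j
    rw [show (3 : Polynomial ℤ) = Polynomial.C 3 from rfl, coeff_C_mul]
  induction n using Nat.strong_induction_on with
  | _ n ih =>
    match n with
    | 0 => simp [qq]
    | 1 =>
      refine ⟨fun j hj => ?_, fun _ => ?_⟩
      · rw [qq, hX, if_neg (by omega), if_neg (by omega)]; simp
      · rw [qq, hX]; simp
    | 2 =>
      refine ⟨fun j hj => ?_, fun _ => ?_⟩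
      · obtain ⟨j, rfl⟩ : ∃ i, j = i + 2 := ⟨j - 2, by omega⟩
        have e1 : ¬ (j + 2 + 1 = 1) := by omega
        have e2 : ¬ (j + 2 + 1 = 2) := by omega
        have e3 : ¬ (j + 2 = 1) := by omega
        have e4 : ¬ (j + 2 = 2) := by omega
        have e5 : ¬ (j + 1 = 1) := by omega
        have e6 : ¬ (j + 1 = 2) := by omega
        have e7 : ¬ (j = 1) := by omega
        have e8 : ¬ (j = 2) := by omega
        have e9 : ¬ (1 = j + 2) := by omega
        simp only [qq, coeff_sub, coeff_add, coeff_divX, coeff_C_mul, hm, hX, coeff_X, e1, e2, e3, e4, e5, e6, e7, e8, e9,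
          if_false]
        ring
      · simp only [qq, coeff_sub, coeff_add, coeff_divX, coeff_C_mul, show 2 * 2 = 2 + 2 from rfl, hm, hX, coeff_X]
        simp
    | n + 3 =>
      obtain ⟨a1, b1⟩ := ih (n + 2) (by omega)
      obtain ⟨a2, b2⟩ := ih (n + 1) (by omega)
      obtain ⟨a3, b3⟩ := ih n (by omega)
      refine ⟨fun j hj => ?_, fun _ => ?_⟩
      · obtain ⟨j, rfl⟩ : ∃ i, j = i + 2 := ⟨j - 2, by omega⟩
        have e1 : ¬ (j + 2 = 1) := by omega
        have e2 : ¬ (j + 2 = 2) := by omega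
        rw [qq, coeff_sub, coeff_sub, coeff_add, coeff_add, coeff_divX, coeff_C_mul, hm, hX, h3,
          a1 (j + 2 + 1) (by omega), a1 (j + 1) (by omega), a1 j (by omega), a2 (j + 2) (by omega), a3 (j + 2) (by omega)]
        simp only [e1, e2, if_false]
        ring
      · have e1 : ¬ (2 * (n + 2) + 2 = 1) := by omega
        have e2 : ¬ (2 * (n + 2) + 2 = 2) := by omega
        rw [show 2 * (n + 3) = 2 * (n + 2) + 2 by ring, qq, coeff_sub, coeff_sub, coeff_add, coeff_add, coeff_divX, coeff_C_mul, hm, hX, h3,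
          a1 (2 * (n + 2) + 2 + 1) (by omega), a1 (2 * (n + 2) + 1) (by omega), b1 (by omega), a2 (2 * (n + 2) + 2) (by omega),
          a3 (2 * (n + 2) + 2) (by omega)]
        simp only [e1, e2, if_false]
        ring

/-- the transition matrix -/
noncomputable def TT (n : ℕ) : Matrix (Fin (n + (n + 1))) (Fin (n + (n + 1))) K :=
  Matrix.of fun J k => if Odd (k : ℕ) then (((qq (((k : ℕ) + 1) / 2)).coeff ((J : ℕ) + 1) : ℤ) : K) else if J = k then 1 else 0

theorem det_TT (n : ℕ) : (TT n : Matrix (Fin (n + (n + 1))) (Fin (n + (n + 1))) K).det = (-1) ^ n := by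
  rw [Matrix.det_of_isUpperTriangular]
  · have h1 : ∀ k : Fin (n + (n + 1)), (TT n : Matrix (Fin (n + (n + 1))) (Fin (n + (n + 1))) K) k k =
        (fun j : ℕ => if Odd j then (-1 : K) else 1) k := by
      intro k
      simp only [TT, Matrix.of_apply]
      by_cases hk : Odd (k : ℕ)
      · rw [if_pos hk, if_pos hk]
        obtain ⟨m, hm⟩ := hk
        have h2 := (qq_coeff (m + 1)).2 (by omega)
        rw [hm, show (2 * m + 1 + 1) / 2 = m + 1 by omega, show 2 * m + 1 + 1 = 2 * (m + 1) by ring, h2]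
        simp
      · rw [if_neg hk, if_neg hk]; simp
    rw [Finset.prod_congr rfl (fun k _ => h1 k), Fin.prod_univ_eq_prod_range (fun j : ℕ => if Odd j then (-1 : K) else 1)]
    clear h1
    induction n with
    | zero => simp
    | succ n ih =>
      rw [show n + 1 + (n + 1 + 1) = n + (n + 1) + 1 + 1 by ring, Finset.prod_range_succ, Finset.prod_range_succ, ih]
      have h3 : Odd (n + (n + 1)) := ⟨n, by ring⟩
      have h4 : ¬ Odd (n + (n + 1) + 1) := by
        rw [Nat.not_odd_iff_even]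
        exact ⟨n + 1, by ring⟩
      rw [if_pos h3, if_neg h4]
      ring
  · intro i j hij
    simp only [id] at hij
    simp only [TT, Matrix.of_apply]
    by_cases hk : Odd (j : ℕ)
    · rw [if_pos hk]
      obtain ⟨m, hm⟩ := hk
      have hij' : (j : ℕ) < i := hij
      rw [(qq_coeff (((j : ℕ) + 1) / 2)).1 _ (by omega)]
      simp
    · rw [if_neg hk, if_neg (by rintro rfl; exact lt_irrefl _ hij)]

open Polynomial in
theorem col_eq (n : ℕ) (z : K) (hz : z ≠ 0) (hz1 : z - 1 ≠ 0) (k : Fin (n + (n + 1))) :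
    col n (n + 1) k z = ∑ J : Fin (n + (n + 1)), er (n + (n + 1)) J z * TT n J k := by
  set a : K := 1 / (z * (z - 1)) with ha
  set b : K := - z ^ 2 / (z - 1) with hb
  set γ : K := z * (z - 1) with hγ
  have her : ∀ J : ℕ, J < n + (n + 1) → er (n + (n + 1)) J z = γ ^ (n + (n + 1)) * (a ^ (J + 1) - b ^ (J + 1)) := by
    intro J hJ
    have hN : γ ^ (n + (n + 1)) = γ ^ (n + (n + 1) - 1 - J) * γ ^ (J + 1) := by
      rw [← pow_add]; congr 1; omega
    rw [er, hN, mul_assoc]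
    congr 1
    rw [mul_sub, ← mul_pow, ← mul_pow, ha, hb, hγ]
    congr 2
    · field_simp
      simp
    · field_simp
  by_cases hk : Odd (k : ℕ)
  · obtain ⟨m, hm⟩ := hk
    have hmn : m < n := by have := k.2; omega
    have hγ0 : γ ≠ 0 := mul_ne_zero hz hz1
    have hai : a⁻¹ = γ := by rw [ha]; simp
    have hbi : b⁻¹ = - (z - 1) / z ^ 2 := by rw [hb, inv_div, div_neg, neg_div]
    have ha0 : a ≠ 0 := by rw [ha]; exact one_div_ne_zero hγ0
    have hb0 : b ≠ 0 := by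
      rw [hb]; exact div_ne_zero (neg_ne_zero.2 (pow_ne_zero _ hz)) hz1
    have hl : a⁻¹ + 3 * a + a ^ 2 = b⁻¹ + 3 * b + b ^ 2 := by
      rw [hai, hbi, ha, hb, hγ]
      field_simp
      ring
    have h1 := qq_rel a b ha0 hb0 hl (m + 1)
    have hdeg : (qq (m + 1)).natDegree < n + (n + 1) + 1 := by
      have : (qq (m + 1)).natDegree ≤ 2 * (m + 1) :=
        natDegree_le_iff_coeff_eq_zero.2 fun j hj => (qq_coeff (m + 1)).1 j hj
      omega
    rw [aeval_eq_sum_range' hdeg, aeval_eq_sum_range' hdeg, ← Finset.sum_sub_distrib, Finset.sum_range_succ', pow_zero,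
      pow_zero, sub_self, add_zero, Finset.sum_range] at h1
    have h2 : ∑ J : Fin (n + (n + 1)), er (n + (n + 1)) J z * TT n J k = γ ^ (n + (n + 1)) * (a⁻¹ ^ (m + 1) - b⁻¹ ^ (m + 1)) := by
      rw [h1, Finset.mul_sum]
      refine Finset.sum_congr rfl fun J _ => ?_
      rw [her J J.2, TT, Matrix.of_apply, if_pos ⟨m, hm⟩, hm, show (2 * m + 1 + 1) / 2 = m + 1 by omega]
      simp only [zsmul_eq_mul]
      ring
    rw [h2, hm, col, if_pos ⟨m, rfl⟩, show (2 * m + 1 - 1) / 2 = m by omega, hai, hbi]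
    obtain ⟨r, hr⟩ : ∃ r, n = m + 1 + r := ⟨n - (m + 1), by omega⟩
    rw [om, show n - 1 - m = r by omega]
    have e1 : γ ^ (n + (n + 1)) = z ^ (2 * (m + 1)) * z ^ (2 * r) * z * (z - 1) ^ (2 * n + 1) := by
      rw [hγ, mul_pow, hr]; ring
    have e2 : (-(z - 1) / z ^ 2) ^ (m + 1) = (-1) ^ (m + 1) * (z - 1) ^ (m + 1) / z ^ (2 * (m + 1)) := by
      rw [div_pow, ← pow_mul, ← mul_pow]; ring
    have e3 : γ ^ (m + 1) = z ^ (m + 1) * (z - 1) ^ (m + 1) := by rw [hγ, mul_pow]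
    have e4 : z ^ (2 * (m + 1)) * ((-1) ^ (m + 1) * (z - 1) ^ (m + 1) / z ^ (2 * (m + 1))) =
      (-1) ^ (m + 1) * (z - 1) ^ (m + 1) := mul_div_cancel₀ _ (pow_ne_zero _ hz)
    have e5 : (-z ^ 3) ^ (m + 1) = (-1) ^ (m + 1) * (z ^ (m + 1) * z ^ (2 * (m + 1))) := by
      rw [← pow_add, show m + 1 + 2 * (m + 1) = 3 * (m + 1) by ring, pow_mul, ← mul_pow]; ring
    have e6 : ((-1 : K) ^ m) * (-1) ^ m = 1 := by rw [← mul_pow]; simp
    rw [e1, e2, e3, e5]
    linear_combination ((z - 1) ^ (2 * n + 1) * z ^ (2 * r) * z) * e4 +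
      ((z - 1) ^ (2 * (n + 1)) * z * z ^ (2 * r) * (z - 1) ^ m * z ^ (m + 1) * z ^ (2 * (m + 1))) * e6
  · have hk' := hk
    rw [Nat.not_odd_iff_even] at hk'
    obtain ⟨j, hj⟩ := hk'
    have hjn : j ≤ n := by have := k.2; omega
    have h2 : ∑ J : Fin (n + (n + 1)), er (n + (n + 1)) J z * TT n J k = er (n + (n + 1)) k z := by
      rw [Finset.sum_eq_single k]
      · rw [TT, Matrix.of_apply, if_neg hk, if_pos rfl, mul_one]
      · intro J _ hJ
        rw [TT, Matrix.of_apply, if_neg hk, if_neg hJ, mul_zero]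
      · intro h; exact absurd (Finset.mem_univ _) h
    rw [h2, col, if_neg hk, er, hj, show (j + j) / 2 = j by omega, show n + 1 - 1 - j = n - j by omega,
      show n + (n + 1) - 1 - (j + j) = 2 * (n - j) by omega, mul_pow]
    have e5 : (-z ^ 3) ^ (j + j + 1) = - z ^ (3 * (j + j) + 3) := by
      rw [Odd.neg_pow ⟨j, by ring⟩, ← pow_mul]; congr 2
    rw [e5]
    ring

theorem R_col (n : ℕ) (z : Fin (n + (n + 1)) → K) (hz : ∀ i, z i ≠ 0) (hz1 : ∀ i, z i - 1 ≠ 0) :
    ap (wl (rl (n + (n + 1))) : A K) (List.ofFn z) * QQ (n + (n + 1)) z * ∏ i, (1 + z i ^ 3) =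
    (-1) ^ n * (∏ i, z i) * (Matrix.of (fun i k : Fin (n + (n + 1)) => col n (n + 1) k (z i))).det := by
  rw [R_poly _ z hz hz1]
  have h1 : (Matrix.of (fun i k : Fin (n + (n + 1)) => col n (n + 1) k (z i))) =
      (Matrix.of (fun i k : Fin (n + (n + 1)) => er (n + (n + 1)) k (z i))) * TT n := by
    ext i k
    rw [Matrix.mul_apply, Matrix.of_apply, col_eq n (z i) (hz i) (hz1 i) k]
    rfl
  rw [h1, Matrix.det_mul, det_TT]
  have e6 : ((-1 : K) ^ n) * (-1) ^ n = 1 := by rw [← mul_pow]; simp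
  linear_combination (-(∏ i, z i) * (Matrix.of (fun i k : Fin (n + (n + 1)) => er (n + (n + 1)) k (z i))).det) * e6

end field

end Pool.Agent.V11307.RV
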