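import Mathlib
import Pool.Agent.V11307.RV.G2
import Pool.Agent.V11175.Sh12

/-!
# The reduction from the reversed word to the even word
-/

set_option autoImplicit false
set_option linter.unusedSectionVars false

namespace Pool.Agent.V11307.RV

open Pool.Agent.V11175.Sh Pool.Agent.V11175.Sh.Sh Pool.Agent.V11175.Sh.A
open Finset MvPolynomial

section nat

variable {K K' : Type} [CommRing K] [CommRing K'] (φ : K →+* K')

lemma tt_nat (k : ℕ) (c : List K) : ap (tt k : A K') (c.map φ) = φ (ap (tt k : A K) c) := by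
  unfold tt
  match c with
  | [] => rw [List.map_nil, t_nil, t_nil, map_zero]
  | [x] => rw [List.map_cons, List.map_nil, t_single, t_single, map_pow]
  | x :: y :: c => rw [List.map_cons, List.map_cons, t_cons2, t_cons2, map_zero]

lemma wl_nat (l : List ℕ) : ∀ c : List K, ap (wl l : A K') (c.map φ) = φ (ap (wl l : A K) c) := by
  induction l with
  | nil =>
    intro c
    change ap (1 : A K') (c.map φ) = φ (ap (1 : A K) c)
    cases c with
    | nil => rw [List.map_nil, one_apply_nil, one_apply_nil, map_one]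
    | cons x c => rw [List.map_cons, one_apply_cons, one_apply_cons, map_zero]
  | cons a l ih =>
    intro c
    have e : ∀ (L : Type) [CommRing L], (wl (a :: l) : A L) = tt a * wl l := fun L _ => rfl
    rw [e, e]
    exact mulF_nat fa φ φ fa (fun x y => by simp [fa]) c (ap (tt a)) (ap (wl l)) (ap (tt a)) (ap (wl l))
      (fun c => tt_nat φ a c) ih

lemma QQ_nat (n : ℕ) : ∀ z : Fin n → K, QQ n (fun i => φ (z i)) = φ (QQ n z) := by
  induction n with
  | zero => intro z; simp [QQ]
  | succ n ih =>
    intro z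
    rw [QQ, QQ, map_mul, ← ih, map_prod]
    simp

lemma om_nat (n k : ℕ) (z : K) : om n k (φ z) = φ (om n k z) := by
  simp [om]

lemma col_nat (n s c : ℕ) (z : K) : col n s c (φ z) = φ (col n s c z) := by
  unfold col
  split_ifs
  · rw [om_nat]; simp
  · simp

end nat

lemma special (N : ℕ) (A' B' : (Fin N → R) → R) (hA : ∀ (ψ : R →ₐ[ℚ] R) z, A' (fun i => ψ (z i)) = ψ (A' z))
    (hB : ∀ (ψ : R →ₐ[ℚ] R) z, B' (fun i => ψ (z i)) = ψ (B' z))
    (h : A' (fun i => X (i : ℕ)) = B' (fun i => X (i : ℕ))) : ∀ z, A' z = B' z := by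
  intro z
  set ψ : R →ₐ[ℚ] R := aeval (fun j => if h : j < N then z ⟨j, h⟩ else 0) with hψ
  have hz : z = fun i : Fin N => ψ (X (i : ℕ)) := by funext i; simp [hψ]
  rw [hz, hA, hB, h]

/-- left side of the determinant identities -/
noncomputable def LL (N : ℕ) (v : A R) (z : Fin N → R) : R :=
  ap v (List.ofFn z) * QQ N z * ∏ i, (1 + z i ^ 3)

lemma LL_nat (N : ℕ) (v : A R) (hv : Nat' v) (ψ : R →ₐ[ℚ] R) (z : Fin N → R) :
    LL N v (fun i => ψ (z i)) = ψ (LL N v z) := by
  have h1 : ap v (List.ofFn fun i => ψ (z i)) = ψ (ap v (List.ofFn z)) := by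
    rw [← hv ψ, List.map_ofFn]; rfl
  have h2 := QQ_nat (ψ : R →+* R) N z
  rw [LL, LL, h1, map_mul, map_mul, map_prod]
  simp only [RingHom.coe_coe] at h2
  rw [h2]
  simp

lemma det_nat (N : ℕ) (g : ℕ → R → R) (hg : ∀ (ψ : R →ₐ[ℚ] R) k x, g k (ψ x) = ψ (g k x)) (ψ : R →ₐ[ℚ] R)
    (z : Fin N → R) : (Matrix.of (fun i k : Fin N => g k (ψ (z i)))).det = ψ (Matrix.of (fun i k : Fin N => g k (z i))).det := by
  rw [AlgHom.map_det]
  congr 1
  ext i k
  simp [hg]

/-- evaluation at 2 -/
noncomputable def e2 : R →ₐ[ℚ] ℚ := aeval (fun _ => 2)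

lemma X_ne (i : ℕ) : (X i : R) ≠ 0 := X_ne_zero i

lemma X1_ne (i : ℕ) : (X i - 1 : R) ≠ 0 := by
  intro h
  have := congrArg e2 h
  rw [map_sub, map_one, map_zero, e2, aeval_X] at this
  norm_num at this

lemma nat_wl (l : List ℕ) : Nat' (wl l : A R) := fun φ c => wl_nat (φ : R →+* R) l c

theorem R_all (n : ℕ) : ∀ z : Fin (n + (n + 1)) → R, LL _ (wl (rl (n + (n + 1)))) z =
    (-1) ^ n * (∏ i, z i) * (Matrix.of (fun i k : Fin (n + (n + 1)) => col n (n + 1) k (z i))).det := by
  refine special _ _ _ (LL_nat _ _ (nat_wl _)) (fun ψ z => ?_) ?_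
  · rw [det_nat _ (fun k x => col n (n + 1) k x) (fun ψ k x => col_nat (ψ : R →+* R) n (n + 1) k x), map_mul, map_mul,
      map_prod]
    simp
  · have hinj := IsFractionRing.injective R (FractionRing R)
    apply hinj
    set φ := algebraMap R (FractionRing R) with hφ
    have h := R_col n (fun i : Fin (n + (n + 1)) => φ (X (i : ℕ)))
      (fun i => by rw [← map_zero φ]; exact fun h => X_ne _ (hinj h))
      (fun i => by rw [← map_one φ, ← map_sub, ← map_zero φ]; exact fun h => X1_ne _ (hinj h))
    have h1 : ap (wl (rl (n + (n + 1))) : A (FractionRing R)) (List.ofFn fun i : Fin (n + (n + 1)) => φ (X (i : ℕ))) =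
        φ (ap (wl (rl (n + (n + 1))) : A R) (List.ofFn fun i : Fin (n + (n + 1)) => (X (i : ℕ) : R))) := by
      rw [← wl_nat φ, List.map_ofFn]; rfl
    rw [h1, QQ_nat φ] at h
    rw [LL, map_mul, map_mul, map_prod, map_mul, map_mul, map_prod, RingHom.map_det]
    simp only [map_add, map_one, map_pow, map_neg] at h ⊢
    rw [h]
    congr 1
    congr 1
    ext i k
    simp [col_nat φ]

theorem W_all (n : ℕ) : ∀ z : Fin n → R, LL _ (wl (vl n)) z =
    (∏ i, z i) ^ 2 * (Matrix.of (fun i k : Fin n => om n k (z i))).det := by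
  refine special _ _ _ (LL_nat _ _ (nat_wl _)) (fun ψ z => ?_) ?_
  · rw [det_nat _ (fun k x => om n k x) (fun ψ k x => om_nat (ψ : R →+* R) n k x), map_mul, map_pow,
      map_prod]
  · have hinj := IsFractionRing.injective R (FractionRing R)
    apply hinj
    set φ := algebraMap R (FractionRing R) with hφ
    have h := W_poly n (fun i : Fin n => φ (X (i : ℕ)))
      (fun i => by rw [← map_zero φ]; exact fun h => X_ne _ (hinj h))
      (fun i => by rw [← map_one φ, ← map_sub, ← map_zero φ]; exact fun h => X1_ne _ (hinj h))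
    have h1 : ap (wl (vl n) : A (FractionRing R)) (List.ofFn fun i : Fin n => φ (X (i : ℕ))) =
        φ (ap (wl (vl n) : A R) (List.ofFn fun i : Fin n => (X (i : ℕ) : R))) := by
      rw [← wl_nat φ, List.map_ofFn]; rfl
    rw [h1, QQ_nat φ] at h
    rw [LL, map_mul, map_mul, map_prod, map_mul, map_pow, map_prod, RingHom.map_det]
    simp only [map_add, map_one, map_pow] at h ⊢
    rw [h]
    congr 1
    congr 1
    ext i k
    simp [om_nat φ]

/-- chains of reductions -/
def Ch : ℕ → A R → Prop
  | 0, w => Nat' w ∧ FA (ap w)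
  | s + 1, w => Nat' w ∧ ∃ v, d w = D v ∧ Ch s v

lemma Ch.nat : ∀ {s : ℕ} {w : A R}, Ch s w → Nat' w
  | 0, _, h => h.1
  | _ + 1, _, h => h.1

/-- codes of the columns -/
def code (s k : ℕ) : ℕ := if k < 2 * s then k else 2 * k - 2 * s + 1

lemma code_succ (s k : ℕ) : code (s + 1) (if k < 2 * s then k else k + 1) = code s k := by
  unfold code
  split_ifs <;> omega

lemma col_code (n s k : ℕ) (x : R) : col n (s + 1) (code s k) x = (x - 1) ^ 2 * col n s (code s k) x := by
  by_cases hc : Odd (code s k)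
  · rw [col, col, if_pos hc, if_pos hc, show 2 * (s + 1) = 2 + 2 * s by ring, pow_add]
    ring
  · have h1 : code s k / 2 < s := by
      unfold code at hc ⊢
      split_ifs at hc ⊢ with hk
      · omega
      · exact absurd ⟨k - s, by omega⟩ hc
    rw [col, col, if_neg hc, if_neg hc, show 2 * (s + 1 - 1 - code s k / 2) = 2 + 2 * (s - 1 - code s k / 2) by omega, pow_add]
    ring

lemma col_one (n s c : ℕ) (hc : Odd c ∨ c / 2 < s) : col n (s + 1) c (1 : R) = 0 := by
  by_cases h : Odd c
  · rw [col, if_pos h, sub_self, zero_pow (by omega)]; ring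
  · rw [col, if_neg h, sub_self, zero_pow (by rcases hc with h' | h'; · exact absurd h' h
                                              · omega)]; ring

lemma col_two (n s : ℕ) : col n (s + 1) (2 * s) (1 : R) = 2 := by
  have h : ¬ Odd (2 * s) := by rw [Nat.not_odd_iff_even]; exact ⟨s, by ring⟩
  rw [col, if_neg h, sub_self, show 2 * (s + 1 - 1 - 2 * s / 2) = 0 by omega]
  norm_num

lemma pts_ofFn (n : ℕ) : pts n = List.ofFn (fun i : Fin n => (1 + X (n - 1 - (i : ℕ)) : R)) := by
  induction n with
  | zero => rfl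
  | succ n ih =>
    rw [pts, ih, List.ofFn_succ]
    congr 1
    congr 1
    funext i
    rw [Fin.val_succ, show n + 1 - 1 - ((i : ℕ) + 1) = n - 1 - i by omega]

lemma QQ_const (n : ℕ) (c : ℚ) (hc : c * c - 1 ≠ 0) : QQ n (fun _ => c) ≠ 0 := by
  induction n with
  | zero => simp [QQ]
  | succ n ih =>
    rw [QQ]
    exact mul_ne_zero (Finset.prod_ne_zero_iff.2 fun _ _ => hc) ih

lemma QU_ne (n : ℕ) (a : Fin n → ℕ) : QQ n (fun i => (1 + X (a i) : R)) * ∏ i, (1 + (1 + X (a i) : R) ^ 3) ≠ 0 := by
  intro h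
  have h1 := congrArg e2 h
  have h2 := QQ_nat (e2 : R →+* ℚ) n (fun i => (1 + X (a i) : R))
  have h3 : (fun i => (e2 : R →+* ℚ) (1 + X (a i) : R)) = fun _ => (3 : ℚ) := by
    funext i
    simp [e2]; norm_num
  rw [h3] at h2
  rw [map_mul, map_zero, map_prod] at h1
  have h4 : ∀ i : Fin n, e2 (1 + (1 + X (a i) : R) ^ 3) = 28 := by
    intro i; simp [e2]; norm_num
  rw [Finset.prod_congr rfl (fun i _ => h4 i)] at h1
  change (e2 : R →+* ℚ) (QQ n (fun i => (1 + X (a i) : R))) * _ = 0 at h1
  rw [← h2] at h1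
  rcases mul_eq_zero.1 h1 with h5 | h5
  · exact QQ_const n 3 (by norm_num) h5
  · simp at h5

lemma FA_wl (l : List ℕ) : FA (ap (wl l : A R)) := by
  induction l with
  | nil => exact FA.one _
  | cons a l ih =>
    have : (wl (a :: l) : A R) = tt a * wl l := rfl
    rw [this]
    exact (FA.t _ _).mul ih

theorem chain (n : ℕ) (ε : ℚ) (e : ℕ) : ∀ s, s ≤ n + 1 → ∀ v, Ch s v →
    (∀ z : Fin (n + s) → R, LL _ v z = C ε * (∏ i, z i) ^ e *
      (Matrix.of (fun i k : Fin (n + s) => col n s (code s k) (z i))).det) →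
    al (n + s) v = ε * al n (wl (vl n)) := by
  intro s
  induction s with
  | zero =>
    intro _ v hv H
    set z : Fin n → R := fun i => 1 + X (n - 1 - (i : ℕ)) with hz
    have h1 : LL n v z = C ε * (∏ i, z i) ^ e *
      (Matrix.of (fun i k : Fin n => col n 0 (code 0 k) (z i))).det := H z
    have h2 := W_all n z
    have h3 : (Matrix.of (fun i k : Fin n => col n 0 (code 0 k) (z i))).det =
        (∏ i, z i) * (Matrix.of (fun i k : Fin n => om n k (z i))).det := by
      rw [← Matrix.det_mul_column]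
      congr 1
      apply Matrix.ext
      intro i k
      rw [Matrix.of_apply, Matrix.of_apply, Matrix.of_apply]
      have hc : code 0 k = 2 * k + 1 := by unfold code; rw [if_neg (by omega)]; omega
      rw [hc, col, if_pos ⟨k, rfl⟩, show (2 * (k : ℕ) + 1 - 1) / 2 = k by omega]
      simp
    rw [h3] at h1
    have h0 := QU_ne n (fun i => n - 1 - (i : ℕ))
    have h4 : (∏ i, z i) ^ 2 * ap v (pts n) = (C ε * (∏ i, z i) ^ (e + 1)) * ap (wl (vl n)) (pts n) := by
      apply mul_right_cancel₀ h0
      change _ * (QQ n z * ∏ i, (1 + z i ^ 3)) = _ * (QQ n z * ∏ i, (1 + z i ^ 3))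
      rw [pts_ofFn]
      rw [LL] at h1 h2
      linear_combination (∏ i, z i) ^ 2 * h1 - (C ε * (∏ i, z i) ^ (e + 1)) * h2
    have h5 := congrArg (coeff (ex n)) h4
    rw [coeff_mul_alt n v hv.1 hv.2, coeff_mul_alt n _ (nat_wl _) (FA_wl _)] at h5
    have h6 : constantCoeff (∏ i, z i) = (1 : ℚ) := by
      rw [map_prod]
      exact Finset.prod_eq_one fun i _ => by simp [hz]
    rw [map_mul, map_pow, map_pow, h6, constantCoeff_C, one_pow, one_pow, one_mul, mul_one] at h5
    exact h5
  | succ s ih =>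
    intro hs v hv H
    obtain ⟨hnat, v', hd, hv'⟩ := hv
    rw [show n + (s + 1) = n + s + 1 from rfl, al_step (n + s) hnat hd]
    refine ih (by omega) v' hv' ?_
    refine special _ _ _ (LL_nat _ _ hv'.nat) (fun ψ z => ?_) ?_
    · rw [det_nat _ (fun k x => col n s (code s k) x) (fun ψ k x => col_nat (ψ : R →+* R) n s _ x), map_mul, map_mul,
        map_pow, map_prod]
      congr 2
      simp
    · set z : Fin (n + s) → R := fun i => X (i : ℕ) with hz
      have h1 := H (Fin.cons 1 z)
      have h2 : (List.ofFn (Fin.cons 1 z : Fin (n + s + 1) → R)) = 1 :: List.ofFn z := by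
        rw [List.ofFn_succ]; simp
      have h3 : ap v (1 :: List.ofFn z) = (∏ i, (z i - 1)) * ap v' (List.ofFn z) := by
        rw [← E_apply]
        change ap (d v) (List.ofFn z) = _
        rw [hd, D, M_apply, List.map_ofFn, List.prod_ofFn]
        rfl
      have h4 : QQ (n + s + 1) (Fin.cons 1 z : Fin (n + s + 1) → R) = (∏ i, (z i - 1)) * QQ (n + s) z := by
        rw [QQ]; simp
      have h5 : (∏ i : Fin (n + s + 1), (1 + (Fin.cons 1 z : Fin (n + s + 1) → R) i ^ 3)) = 2 * ∏ i, (1 + z i ^ 3) := by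
        rw [Fin.prod_univ_succ]; simp; norm_num
      have h6 : (∏ i : Fin (n + s + 1), ((Fin.cons 1 z : Fin (n + s + 1) → R) i)) = ∏ i, z i := by
        rw [Fin.prod_univ_succ]; simp
      have hdet : (Matrix.of (fun i k : Fin (n + s + 1) =>
          col n (s + 1) (code (s + 1) k) ((Fin.cons 1 z : Fin (n + s + 1) → R) i))).det =
          2 * ((∏ i, (z i - 1)) ^ 2 * (Matrix.of (fun i k : Fin (n + s) => col n s (code s k) (z i))).det) := by
        have hlt : 2 * s < n + s + 1 := by omega
        rw [Matrix.det_succ_row_zero, Finset.sum_eq_single (⟨2 * s, hlt⟩ : Fin (n + s + 1))]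
        · have e1 : ((-1 : R) ^ (((⟨2 * s, hlt⟩ : Fin (n + s + 1)) : ℕ))) = 1 := by
            simp
          have e3 : code (s + 1) (2 * s) = 2 * s := by
            unfold code; rw [if_pos (by omega)]
          rw [e1, Matrix.of_apply, Fin.cons_zero]
          simp only
          rw [e3, col_two, one_mul]
          congr 1
          rw [← Finset.prod_pow, ← Matrix.det_mul_column]
          congr 1
          apply Matrix.ext
          intro i k
          rw [Matrix.submatrix_apply, Matrix.of_apply, Matrix.of_apply, Matrix.of_apply, Fin.cons_succ]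
          have e4 : (((⟨2 * s, hlt⟩ : Fin (n + s + 1)).succAbove k : Fin (n + s + 1)) : ℕ) = if (k : ℕ) < 2 * s then (k : ℕ) else k + 1 := by
            rw [Fin.succAbove]
            simp only [Fin.lt_def, Fin.val_castSucc]
            split_ifs <;> simp
          rw [e4, code_succ, col_code]
        · intro j _ hj
          have : col n (s + 1) (code (s + 1) j) (1 : R) = 0 := by
            apply col_one
            have hj' : (j : ℕ) ≠ 2 * s := fun h => hj (Fin.ext h)
            unfold code
            split_ifs with hk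
            · by_cases ho : Odd (j : ℕ)
              · exact Or.inl ho
              · rw [Nat.not_odd_iff_even] at ho
                obtain ⟨r, hr⟩ := ho
                right; omega
            · left; exact ⟨j - (s + 1), by omega⟩
          rw [Matrix.of_apply, Fin.cons_zero, this]
          ring
        · intro h; exact absurd (Finset.mem_univ _) h
      have h7 : (LL (n + s + 1) v (Fin.cons 1 z)) = C ε * (∏ i : Fin (n + s + 1), (Fin.cons 1 z : Fin (n + s + 1) → R) i) ^ e *
        (Matrix.of (fun i k : Fin (n + s + 1) =>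
          col n (s + 1) (code (s + 1) k) ((Fin.cons 1 z : Fin (n + s + 1) → R) i))).det := h1
      rw [LL, h2, h3, h4, h5, h6, hdet] at h7
      have h8 : (2 : R) * (∏ i, (z i - 1)) ^ 2 ≠ 0 := by
        refine mul_ne_zero two_ne_zero (pow_ne_zero _ (Finset.prod_ne_zero_iff.2 fun i _ => X1_ne _))
      apply mul_left_cancel₀ h8
      rw [LL]
      linear_combination h7

end Pool.Agent.V11307.RV
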