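import Mathlib
import Pool.Agent.V11307.RV.G3
import Pool.Agent.V11175.Sh13

/-!
# Evaluation of the reversed word
-/

set_option autoImplicit false
set_option linter.unusedSectionVars false

namespace Pool.Agent.V11307.RV

open Pool.Agent.V11175.Sh Pool.Agent.V11175.Sh.Sh Pool.Agent.V11175.Sh.A
open Finset MvPolynomial

lemma Ch_of_Sp : ∀ s m (w : A R), w ∈ Sp (m + s) (s * (m + s)) → Ch s w := by
  intro s
  induction s with
  | zero => intro m w hw; exact ⟨Sp_nat hw, Sp_FA hw⟩
  | succ s ih =>
    intro m w hw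
    obtain ⟨v, hv, hd⟩ := ex_d (m + s) (s * (m + s)) w (Sp_mono _ (by ring_nf; omega) hw)
    exact ⟨Sp_nat hw, v, hd, ih m v hv⟩

lemma ap_shift (l : List ℕ) (s : ℕ) (c : List R) :
    ap (wordL (l.map (fun a => a + s))) c = c.prod ^ s * ap (wordL l) c := by
  induction s with
  | zero => simp
  | succ s ih =>
    have h : wordL (l.map (fun a => a + (s + 1))) = S (wordL (l.map (fun a => a + s))) := by
      rw [S_wordL, List.map_map]; rfl
    rw [h, S, M_apply, ih, List.map_id', pow_succ]
    ring

lemma rl_length (n : ℕ) : (rl n).length = n := by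
  induction n with
  | zero => rfl
  | succ n ih => rw [rl, List.length_append, List.length_map, ih]; rfl

theorem main (n : ℕ) : al (n + (n + 1)) (wordL (rl (n + (n + 1)))) = (-1) ^ n * al n (wordL (vl n)) := by
  set N := n + (n + 1) with hN
  set L := (n + 1) * (n + (n + 1)) with hL
  have h1 := al_shift (rl N) L
  rw [rl_length] at h1
  rw [← h1]
  have hmem : wordL ((rl N).map (fun a => a + L)) ∈ Sp (n + (n + 1)) ((n + 1) * (n + (n + 1))) := by
    have := wordL_shift_mem (rl N) L
    rw [rl_length] at this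
    exact this
  refine chain n ((-1) ^ n) (L + 1) (n + 1) le_rfl _ (Ch_of_Sp (n + 1) n _ hmem) ?_
  intro z
  have h2 := R_all n z
  have h3 : (Matrix.of (fun i k : Fin (n + (n + 1)) => col n (n + 1) (code (n + 1) k) (z i))) =
      (Matrix.of (fun i k : Fin (n + (n + 1)) => col n (n + 1) k (z i))) := by
    apply Matrix.ext
    intro i k
    rw [Matrix.of_apply, Matrix.of_apply]
    congr 1
    unfold code
    rw [if_pos (by omega)]
  rw [h3]
  rw [LL] at h2 ⊢
  rw [ap_shift, List.prod_ofFn, map_pow, map_neg, map_one]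
  change _ * ap (wl (rl (n + (n + 1)))) (List.ofFn z) * _ * _ = _
  linear_combination (∏ i, z i) ^ L * h2

end Pool.Agent.V11307.RV
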