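import Mathlib
import Pool.Agent.V11307.RV.G4
import Pool.Agent.V11175.Sh6

/-!
# The reversed word and the doubled even word
-/

set_option autoImplicit false
set_option linter.unusedSectionVars false

namespace Pool.Agent.V11307.RV

open Pool.Agent.V11175.Sh Pool.Agent.V11175.Sh.Sh Pool.Agent.V11175.Sh.A
open Finset MvPolynomial

lemma rl_cons (n : ℕ) : rl (n + 1) = (n + 1) :: rl n := by
  induction n with
  | zero => rfl
  | succ n ih =>
    rw [rl, ih, List.map_cons, List.cons_append]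
    have h : List.map (fun x => x + 1) (rl n) ++ [1] = rl (n + 1) := rfl
    rw [h, ih]

lemma ofFn_rl (n : ℕ) : List.ofFn (fun j : Fin n => n - (j : ℕ)) = rl n := by
  induction n with
  | zero => rfl
  | succ n ih =>
    rw [List.ofFn_succ, rl_cons, ← ih]
    congr 1
    congr 1
    funext i
    rw [Fin.val_succ]
    omega

lemma ofFn_vl (n : ℕ) : List.ofFn (fun j : Fin n => 2 * ((j : ℕ) + 1)) = vl n := by
  induction n with
  | zero => rfl
  | succ n ih =>
    rw [List.ofFn_succ', vl, ← ih, List.concat_eq_append]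
    congr 1

/-- the doubled even word -/
def xl : ℕ → List ℕ
  | 0 => []
  | n + 1 => (2 * n + 2) :: (2 * n + 2) :: xl n

lemma ofFn_xl (n : ℕ) : List.ofFn (fun j : Fin (2 * n) => 2 * (n - (j : ℕ) / 2)) = xl n := by
  induction n with
  | zero => rfl
  | succ n ih =>
    change List.ofFn (fun j : Fin (2 * n + 1 + 1) => 2 * (n + 1 - (j : ℕ) / 2)) = _
    rw [List.ofFn_succ, List.ofFn_succ, xl, ← ih]
    have e1 : 2 * (n + 1 - (((0 : Fin (2 * n + 1 + 1)) : ℕ)) / 2) = 2 * n + 2 := by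
      rw [Fin.val_zero]; omega
    have e2 : 2 * (n + 1 - (((0 : Fin (2 * n + 1)).succ : Fin (2 * n + 1 + 1)) : ℕ) / 2) = 2 * n + 2 := by
      rw [Fin.val_succ, Fin.val_zero]; omega
    rw [e1, e2]
    congr 1
    congr 1
    congr 1
    funext i
    rw [Fin.val_succ, Fin.val_succ]
    omega

lemma d_rev (n : ℕ) : d (wordL (rl (2 * n + 1))) = D ((-1 : R) ^ n • wordL (xl n)) := by
  induction n with
  | zero =>
    change d (wordL [1]) = D ((-1 : R) ^ 0 • wordL [])
    rw [wordL_single, d_tt, pow_zero, one_smul]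
    change 1 = D (1 : A R)
    rw [map_one]
  | succ n ih =>
    rw [show 2 * (n + 1) + 1 = 2 * n + 1 + 1 + 1 by ring, rl_cons, rl_cons, xl]
    have h1 : wordL ((2 * n + 1 + 1 + 1) :: (2 * n + 1 + 1) :: rl (2 * n + 1)) =
        tt (2 * n + 1 + 1 + 1) * (tt (2 * n + 1 + 1) * wordL (rl (2 * n + 1))) := rfl
    have h2 : wordL ((2 * n + 2) :: (2 * n + 2) :: xl n) = tt (2 * n + 2) * (tt (2 * n + 2) * wordL (xl n)) := rfl
    rw [h1, h2, d_ttmul, d_ttmul, map_mul, S_tt, mul_sub, ih, map_smul, map_smul, map_mul, map_mul, D_tt]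
    have h3 := D_sq (K := R) (2 * n + 2)
    rw [← mul_assoc (tt (2 * n + 1 + 1 + 1)) (tt (2 * n + 1 + 1)), ← mul_assoc (tt (2 * n + 2 + 1) - tt (2 * n + 2)), h3, pow_succ]
    simp only [mul_neg, mul_one, neg_smul, neg_mul, smul_neg, neg_neg, mul_smul_comm]
    abel

lemma al_sgn (m n : ℕ) (w : A R) : al m ((-1 : R) ^ n • w) = (-1) ^ n * al m w := by
  rcases Nat.even_or_odd n with h | h
  · rw [h.neg_one_pow, h.neg_one_pow, one_smul, one_mul]
  · rw [h.neg_one_pow, h.neg_one_pow, neg_smul, one_smul, al_neg]; ring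

theorem al_rev (n : ℕ) : al (2 * n + 1) (wordL (rl (2 * n + 1))) = (-1) ^ n * al n (wordL (vl n)) := by
  have h := main n
  rw [show n + (n + 1) = 2 * n + 1 by ring] at h
  exact h

theorem al_dbl (n : ℕ) : al (2 * n) (wordL (xl n)) = al n (wordL (vl n)) := by
  have h1 := al_step (2 * n) (w := wordL (rl (2 * n + 1))) (nat_wl _) (d_rev n)
  rw [al_rev, al_sgn] at h1
  exact (mul_left_cancel₀ (pow_ne_zero _ (by norm_num)) h1).symm

end Pool.Agent.V11307.RV
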